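import Pool.Agent.Helper28.WK.Defs

/-!
# Project WK: definitions for a prime `p`

The weight is `k = 2a+2`, the level `p^n`, `n = ν + 2`, `ν ≥ 1`; coordinate `x = p z`, so the group is
`{(α β; γ δ) | p ∣ β, p^(ν+1) ∣ γ}`. `u` is `act p 0 0 1`.
-/

set_option autoImplicit false

open Pool.Agent.Helper14.CV

namespace Pool.Agent.Helper28.WK

/-- Potentials of symbols for the group of all `(a b; c d)` in `SL₂(ℤ)` with `p^r ∣ b`, `p^s ∣ c`. -/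
def SymP {R : Type} [AddCommGroup R] (p r s : ℕ) (G : ℤ → ℤ → R) : Prop :=
  Homog G ∧ ∀ a b c d : ℤ, a * d - b * c = 1 → (p : ℤ) ^ r ∣ b → (p : ℤ) ^ s ∣ c →
    EqC (act a b c d G) G

/-- A word in the Hecke operators `Tl l m`. -/
def Tw {R : Type} [AddCommGroup R] (m : ℤ) : List ℕ → (ℤ → ℤ → R) → (ℤ → ℤ → R)
  | [], G => G
  | l :: ls, G => Tl l m (Tw m ls G)

/-- The value of a symbol at the word applied to the central path. -/
def evw {R : Type} [AddCommGroup R] (m : ℤ) (ls : List ℕ) (G : ℤ → ℤ → R) : R :=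
  Tw m ls G 1 0 - Tw m ls G 0 1

/-- A word in the Hecke operators of weight `2a+2`. -/
noncomputable def WTw {R : Type} [AddCommGroup R] (a : ℕ) (m : ℤ) :
    List ℕ → (ℤ → ℤ → ℕ → R) → (ℤ → ℤ → ℕ → R)
  | [], Φ => Φ
  | l :: ls, Φ => WT a l m (WTw a m ls Φ)

/-- The list consists of primes different from `p`. -/
def Ok (p : ℕ) (ls : List ℕ) : Prop := ∀ l ∈ ls, l.Prime ∧ l ≠ p

/-- Symbols of weight `2a+2` and level `p^(ν+2)` (coordinate `x = p z`), killed by the traces in both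
directions (`tt`, `ss`), with central component anti-invariant under the Fricke involution (`fr`)
and invariant under `*` (`st`), and killed by all Hecke words applied to the central path (`hk`). -/
structure WSymP {R : Type} [AddCommGroup R] (p a ν : ℕ) (Φ : ℤ → ℤ → ℕ → R) : Prop where
  hom : ∀ i : ℕ, i ≤ 2 * a → Homog (cp Φ i)
  eqv : ∀ α β γ δ : ℤ, α * δ - β * γ = 1 → (p : ℤ) ∣ β → (p : ℤ) ^ (ν + 1) ∣ γ →
    ∀ i : ℕ, i ≤ 2 * a →
    EqC (act α β γ δ (cp Φ i)) (pr Φ ((Polynomial.C α * Polynomial.X + Polynomial.C β) ^ i *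
      (Polynomial.C γ * Polynomial.X + Polynomial.C δ) ^ (2 * a - i)))
  tt : ∀ j : ℕ, j ≤ 2 * a → EqC (fun x y => ∑ i ∈ Finset.range p,
    pr Φ ((Polynomial.X - Polynomial.C (i : ℤ)) ^ j) (x + i * y) y) 0
  ss : ∀ j : ℕ, j ≤ 2 * a → EqC (fun x y => ∑ i ∈ Finset.range p,
    pr Φ (Polynomial.X ^ j * (1 - Polynomial.C ((p : ℤ) ^ ν * i) * Polynomial.X) ^ (2 * a - j))
      x ((p : ℤ) ^ ν * i * x + y)) 0
  fr : EqC (act 0 (-1) ((p : ℤ) ^ ν) 0 (cp Φ a)) (-(cp Φ a))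
  st : EqC (act (-1) 0 0 1 (cp Φ a)) (cp Φ a)
  hk : ∀ M : ℕ, 1 ≤ M → ∀ ls : List ℕ, Ok p ls →
    WTw a ((p : ℤ) ^ M) ls Φ 1 0 a = WTw a ((p : ℤ) ^ M) ls Φ 0 1 a

/-- Reduction modulo `p^M`. -/
noncomputable def redP {p : ℕ} [Fact p.Prime] (M : ℕ) (G : ℤ → ℤ → ℤ_[p]) :
    ℤ → ℤ → ZMod (p ^ M) :=
  fun x y => PadicInt.toZModPow M (G x y)

/-- Killed by the `(a+1)`-st difference. -/
def Plf {p : ℕ} [Fact p.Prime] (a : ℕ) (P : ℤ → ℤ_[p]) : Prop :=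
  ∀ b : ℤ, ∑ j ∈ Finset.range (a + 2), ((-1 : ℤ) ^ j * ((a + 1).choose j : ℤ)) • P (b + j) = 0

/-- `P(b) = ∑_{j ≤ a} b^j V_j(b)` with `p`-periodic `V_j` of sum zero over a period. -/
def QPf {p : ℕ} [Fact p.Prime] (a : ℕ) (P : ℤ → ℤ_[p]) : Prop :=
  ∃ V : ℕ → ℤ → ℤ_[p], (∀ (j : ℕ) (b : ℤ), V j (b + p) = V j b) ∧
    (∀ j : ℕ, ∑ i ∈ Finset.range p, V j (i : ℤ) = 0) ∧
    ∀ b : ℤ, P b = ∑ j ∈ Finset.range (a + 1), (b : ℤ_[p]) ^ j * V j b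

/-- Theorem A for the prime `p`. -/
def TAp (p : ℕ) : Prop := ∀ (m M : ℕ) (g : ℤ → ℤ → ZMod (p ^ M)), 5 ≤ m → SymP p 0 m g →
  EqC (act 0 (-1) ((p : ℤ) ^ m) 0 g) (-g) → EqC (act (-1) 0 0 1 g) g →
  (∀ ls : List ℕ, Ok p ls → evw 1 ls g = 0) →
  ∃ ψ : ℤ → ℤ → ZMod (p ^ M), SymP p 0 (m - 1) ψ ∧ EqC (act p 0 0 1 ψ - ψ) ((4 : ℤ) • g)

/-! ### Basic facts on `pr` -/

section pr

variable {R : Type} [AddCommGroup R]

theorem pr_add (Φ : ℤ → ℤ → ℕ → R) (P Q : Polynomial ℤ) : pr Φ (P + Q) = pr Φ P + pr Φ Q := by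
  funext x y
  simp only [pr, Pi.add_apply]
  exact Polynomial.sum_add_index _ _ _ (fun i => zero_smul _ _) (fun i c d => add_smul _ _ _)

theorem pr_zero (Φ : ℤ → ℤ → ℕ → R) : pr Φ 0 = 0 := by
  funext x y
  simp only [pr, Pi.zero_apply]
  exact Polynomial.sum_zero_index _

/-- `pr Φ` as an additive map. -/
noncomputable def prHom (Φ : ℤ → ℤ → ℕ → R) : Polynomial ℤ →+ (ℤ → ℤ → R) where
  toFun := pr Φ
  map_zero' := pr_zero Φ
  map_add' := pr_add Φ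

theorem pr_sum (Φ : ℤ → ℤ → ℕ → R) {ι : Type} (s : Finset ι) (P : ι → Polynomial ℤ) :
    pr Φ (∑ i ∈ s, P i) = ∑ i ∈ s, pr Φ (P i) := map_sum (prHom Φ) P s

theorem pr_neg (Φ : ℤ → ℤ → ℕ → R) (P : Polynomial ℤ) : pr Φ (-P) = -pr Φ P :=
  map_neg (prHom Φ) P

theorem pr_smul (Φ : ℤ → ℤ → ℕ → R) (c : ℤ) (P : Polynomial ℤ) : pr Φ (c • P) = c • pr Φ P :=
  map_zsmul (prHom Φ) c P

theorem pr_C_mul (Φ : ℤ → ℤ → ℕ → R) (c : ℤ) (P : Polynomial ℤ) :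
    pr Φ (Polynomial.C c * P) = c • pr Φ P := by
  rw [← pr_smul, Polynomial.smul_eq_C_mul]

theorem pr_X_pow (Φ : ℤ → ℤ → ℕ → R) (i : ℕ) : pr Φ (Polynomial.X ^ i) = cp Φ i := by
  funext x y
  simp only [pr, cp]
  rw [← Polynomial.monomial_one_right_eq_X_pow]
  exact (Polynomial.sum_monomial_index (1 : ℤ) (fun (j : ℕ) (c : ℤ) => c • Φ x y j)
    (zero_smul _ _)).trans (one_smul _ _)

theorem pr_eq_sum (Φ : ℤ → ℤ → ℕ → R) (P : Polynomial ℤ) (n : ℕ) (h : P.natDegree < n) :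
    pr Φ P = ∑ i ∈ Finset.range n, P.coeff i • cp Φ i := by
  conv_lhs => rw [P.as_sum_range_C_mul_X_pow' h]
  rw [pr_sum]
  exact Finset.sum_congr rfl fun i _ => by rw [pr_C_mul, pr_X_pow]

end pr

theorem EqC.sum {R : Type} [AddCommGroup R] {ι : Type} (s : Finset ι) {G H : ι → ℤ → ℤ → R}
    (h : ∀ i ∈ s, EqC (G i) (H i)) : EqC (∑ i ∈ s, G i) (∑ i ∈ s, H i) := by
  classical
  induction s using Finset.induction_on with
  | empty => simpa using Pool.Agent.Helper14.CV.EqC.refl (0 : ℤ → ℤ → R)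
  | insert i s hi ih =>
    rw [Finset.sum_insert hi, Finset.sum_insert hi]
    exact Pool.Agent.Helper14.CV.EqC.add (h i (Finset.mem_insert_self i s))
      (ih fun j hj => h j (Finset.mem_insert_of_mem hj))

end Pool.Agent.Helper28.WK
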