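import Pool.Agent.Helper28.WK.DefsP

/-!
# Project WK: statements, part B (the limit and the contradiction, any prime `p`)

Paper proof: /team-store/wkproof.md (there `p = 2`). `u` is `act p 0 0 1`.
-/

set_option autoImplicit false

open Pool.Agent.Helper14.CV

namespace Pool.Agent.Helper28.WK

/-- UIP. A `u`-invariant symbol is constant. Proof. Let `H` be the set of integral matrices `κ` of
determinant one with `EqC (act κ χ) χ`; it is closed under products and inverses (`act_act`,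
`EqC.act`). `(1 b; 0 1)` with `p^r ∣ b` is in `H`; since
`(p 0; 0 1) (1 b; 0 1) = (1 pb; 0 1) (p 0; 0 1)`, from `(1 pb; 0 1)` in `H` and `u χ ≈ χ` follows
`(1 b; 0 1)` in `H` (`χ∘(1 b; 0 1) ≈ χ∘u∘(1 b; 0 1) = χ∘(1 pb; 0 1)∘u ≈ χ∘u ≈ χ`); so `(1 1; 0 1)` is in
`H`. From `(p 0; 0 1) (1 0; pc 1) = (1 0; c 1) (p 0; 0 1)` follows: `(1 0; pc 1)` in `H` implies
`(1 0; c 1)` in `H` (`χ∘(1 0; c 1)∘u = χ∘u∘(1 0; pc 1) ≈ χ∘(1 0; pc 1) ≈ χ ≈ χ∘u`, so `χ∘(1 0; c 1)` and `χ`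
have composites with `u` equal up to a constant, and `Homog` lets one cancel `u`: `(x, y)` times `p`
is `(p x, p y)`, the image of `(x, p y)` under `u`). So `H` contains `(1 1; 0 1)` and `(1 0; 1 1)`, so
all of `SL₂(ℤ)` (`SpecialLinearGroup.SL2Z_generators`, `S = (1 -1; 0 1)(1 0; 1 1)(1 -1; 0 1)`, or
Euclid). Let `c = χ(0,1) - χ(1,0)`. From `(1 1; 0 1)`: `χ(1,1) - χ(1,0) = c`; from `(1 0; 1 1)`:
`χ(0,1) - χ(1,1) = c`, so `c = (χ(0,1) - χ(1,1)) + (χ(1,1) - χ(1,0)) = 2c`, `c = 0`. So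
`χ a c' = χ b d'` for all matrices of determinant one: `StFar`. -/
def StUIp : Prop := StFar → ∀ (p : ℕ), 2 ≤ p → ∀ (R : Type) (_ : AddCommGroup R) (r s : ℕ)
  (χ : ℤ → ℤ → R), SymP p r s χ → EqC (act p 0 0 1 χ) χ → EqC χ 0

/-- The content of UIP. -/
def UIp : Prop := ∀ (p : ℕ), 2 ≤ p → ∀ (R : Type) (_ : AddCommGroup R) (r s : ℕ)
  (χ : ℤ → ℤ → R), SymP p r s χ → EqC (act p 0 0 1 χ) χ → EqC χ 0

/-- LA. Theorem A at the level `(M, M+ν)`. Proof: `m = 2M + ν ≥ 5`,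
`g' = act (p^M) 0 0 1 g` (`g' (x,y) = g (p^M x, y)`) is a symbol of level `(0, m)`: for `p^m ∣ c`,
`(p^M 0; 0 1) (a b; c d) = (a p^M b; c/p^M d) (p^M 0; 0 1)`. Fricke: `g' (-y, p^m x) =`
`g (-p^M y, p^m x) = g (-y, p^(M+ν) x)` (`Homog`) `= (act 0 (-1) (p^ν) 0 g) (p^M x, y)`. `*`: clear.
`Tl l 1 (act (p^M) 0 0 1 H) = act (p^M) 0 0 1 (Tl l (p^M) H)` exactly, so (words, and
`H (p^M, 0) = H (1, 0)` by homogeneity, which is preserved by `Tl`) `evw 1 ls g' = evw (p^M) ls g`.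
Let `ψ'` be given by TAp for `g'`, and `ψ = act 1 0 0 (p^M) ψ'` (`ψ (x,y) = ψ' (x, p^M y)`): level
`(M, M+ν-1)`: for `p^M ∣ b`, `p^(M+ν-1) ∣ c`, `(1 0; 0 p^M) (a b; c d) =`
`(a b/p^M; p^M c d) (1 0; 0 p^M)`. `ψ (p x, y) - ψ (x, y) = (ψ'∘u - ψ') (x, p^M y)` and
`4 g' (x, p^M y) = 4 g (p^M x, p^M y) = 4 g (x, y)`. -/
def StLa : Prop := ∀ (p : ℕ) (_ : Fact p.Prime), TAp p → ∀ (ν M : ℕ) (g : ℤ → ℤ → ZMod (p ^ M)),
  1 ≤ ν → 2 ≤ M → SymP p M (M + ν) g → EqC (act 0 (-1) ((p : ℤ) ^ ν) 0 g) (-g) →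
  EqC (act (-1) 0 0 1 g) g → (∀ ls : List ℕ, Ok p ls → evw ((p : ℤ) ^ M) ls g = 0) →
  ∃ ψ : ℤ → ℤ → ZMod (p ^ M), SymP p M (M + ν - 1) ψ ∧ EqC (act p 0 0 1 ψ - ψ) ((4 : ℤ) • g)

/-- LB2. The limit. Proof. For `M ≥ 2` let `ψ_M` be given by LA for `redP M G` (its hypotheses follow
from those on `G` by reduction), normalised by `ψ_M 1 0 = 0` (subtract a constant) and
`ψ_M 0 0 = 0`. Let `χ = (ψ_{M+1} mod p^M) - ψ_M` (`ZMod.castHom`; reduction `p^(M+1)` to `p^M` of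
`redP (M+1) G` is `redP M G`): a symbol of level `(M+1, M+ν)`, `u χ - χ ≈ 0`, so `χ ≈ 0` by UIP and
`χ = 0` away from the origin (`χ 1 0 = 0`). So for all `x, y` the `ψ_M x y` are compatible and define
`ψ x y : ℤ_[p]` (`PadicInt.ofIntSeq` with representatives, or a limit) with `redP M ψ = ψ_M`, `M ≥ 2`.
`Homog ψ`: modulo all `p^M` (`PadicInt.ext_of_toZModPow`). `ψ (p x, y) - ψ (x, y) - 4 G (x, y)` is for every
`M` modulo `p^M` equal to its value `-4 G (1, 0)` at `(1, 0)` (`ψ (p, 0) = ψ (1, 0) = 0`). -/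
def StLb2 : Prop := StLa → UIp → ∀ (p : ℕ) (_ : Fact p.Prime), TAp p → ∀ (ν : ℕ) (G : ℤ → ℤ → ℤ_[p]),
  1 ≤ ν → Homog G → (∀ M : ℕ, 2 ≤ M → SymP p M (M + ν) (redP M G)) →
  EqC (act 0 (-1) ((p : ℤ) ^ ν) 0 G) (-G) → EqC (act (-1) 0 0 1 G) G →
  (∀ M : ℕ, 2 ≤ M → ∀ ls : List ℕ, Ok p ls → evw ((p : ℤ) ^ M) ls (redP M G) = 0) →
  ∃ ψ : ℤ → ℤ → ℤ_[p], Homog ψ ∧ (∀ M : ℕ, 2 ≤ M → SymP p M (M + ν - 1) (redP M ψ)) ∧
    EqC (act p 0 0 1 ψ - ψ) ((4 : ℤ) • G)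

/-- POL. Polynomiality. Proof. `ψ (p x, y) = ψ (x, y) + 4 G (x, y) + k` away from the origin, and
`∑_j (-1)^j (a+1 choose j) = 0`. For nonzero `v = (x, y)`, `(1 jph; 0 1) (p x, y) = (p (x + jhy), y)`,
so `(Nb a (p h) ψ) (p x, y) = (Nb a h ψ) (x, y) + 4 (Nb a h G) (x, y)` (1). (i) `p ∣ h`: by (1) and
`Nb a h G ≈ 0` the difference `D_h(v, w) = (Nb a h ψ)(w) - (Nb a h ψ)(v)` satisfies
`D_h(v, w) = D_{p^m h}(u^m v, u^m w)` for all `m` (`u (x,y) = (p x, y)`). For `m ≥ M ≥ 2` the matrices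
`(1 j p^m h; 0 1)` are in the group of level `(M, M+ν-1)`, so modulo `p^M` `ψ((1 j p^m h; 0 1) v') = ψ(v') + c_j`
with `c_j` independent of `v'` (`v'` nonzero), so `D ≡ ∑_j ± (ψ(w') - ψ(v')) = 0`. So `D_h = 0`
modulo all `p^M`. (ii) For every `h`, `(Nb a h (ψ + 4 G)) (x, y) = (Nb a (p h) ψ) (p x, y)` by (1), constant
by (i). (iii) `p^ν ∣ c`, `v = (x, y)`, `v' = (x, p y)`: `(1 0; jc 1) (p x, p y) = u ((1 0; jpc 1) v')`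
and by `Homog` `ψ(v'') = ψ(p v'')`, so `(Nc a c ψ) (v) = ∑ ± ψ (u (1 0; jpc 1) v') =`
`(Nc a (p c) ψ) (v') + 4 (Nc a (p c) G) (v')`, and the last term is constant in `v'` since
`p^(ν+1) ∣ p c`; iterate `m` times, `(1 0; j p^m c 1)` is in the group of level `(M, M+ν-1)` for `m ≥ M`,
conclude as in (i). -/
def StPol : Prop := ∀ (p : ℕ) (_ : Fact p.Prime) (a ν : ℕ) (G ψ : ℤ → ℤ → ℤ_[p]), 1 ≤ ν →
  Homog G → Homog ψ → (∀ M : ℕ, 2 ≤ M → SymP p M (M + ν - 1) (redP M ψ)) →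
  EqC (act p 0 0 1 ψ - ψ) ((4 : ℤ) • G) → (∀ h : ℤ, (p : ℤ) ∣ h → EqC (Nb a h G) 0) →
  (∀ c : ℤ, (p : ℤ) ^ (ν + 1) ∣ c → EqC (Nc a c G) 0) →
  (∀ h : ℤ, EqC (Nb a h (ψ + (4 : ℤ) • G)) 0) ∧ (∀ c : ℤ, (p : ℤ) ^ ν ∣ c → EqC (Nc a c ψ) 0)

/-- PL1. A function on `ℤ` killed by the `(a+1)`-st difference is a polynomial of degree `≤ a`
over `ℚ_p`. Proof: the Newton polynomial `f = ∑_{l ≤ a} (Δ^l P)(0) (X choose l)`
(`descPochhammer ℚ_[p] l` divided by `l!`) agrees with `P` at `0, ..., a`; `P - f` is killed by the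
`(a+1)`-st difference and vanishes at `a+1` consecutive integers, so it vanishes (upwards and
downwards; the coefficients of `P(b)` and `P(b+a+1)` in the relation are `±1`). -/
def StPl1 : Prop := ∀ (p : ℕ) (_ : Fact p.Prime) (a : ℕ) (P : ℤ → ℤ_[p]), Plf a P →
  ∃ f : Polynomial ℚ_[p], f.natDegree ≤ a ∧ ∀ b : ℤ, ((P b : ℤ_[p]) : ℚ_[p]) = f.eval (b : ℚ_[p])

/-- GP. Change of variable. `c = p^ν y` (so `|c| < 1`), `b (1 - c x) ≡ x` modulo `p^L`. Proof. If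
`P(b) = f0(b)`, `f0 = ∑_{s ≤ a} f_s X^s` (PL1), put `f = ∑ f_s X^s (1 - c X)^(a-s)`, of degree `≤ a`;
`f(x) = (1 - c x)^a f0(x/(1 - c x))` and
`(1-cx)^a f0(b) - f(x) = ∑_s f_s (1-cx)^(a-s) ((b(1-cx))^s - x^s)` has norm at most
`(max |f_s|) |b(1-cx) - x| ≤ K p^(-L)` (all quantities are in `ℤ_p`, `X^s - Y^s` is divisible by `X - Y`).
For `QPf`: `P(b) = r0_b(b)`, `r0_b = ∑_j V_j(b) X^j` depends only on `b` modulo `p`, and for `L ≥ 1`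
`b ≡ x` modulo `p` (`p ∣ c`), so `P(b) = r0_x(b)`; put `r_x = ∑_j V_j(x) X^j (1 - c X)^(a-j)`; the
sum of `r_i` over a period vanishes. -/
def StGp : Prop := StPl1 → ∀ (p : ℕ) (_ : Fact p.Prime) (a ν : ℕ) (P : ℤ → ℤ_[p]) (y : ℤ), 1 ≤ ν →
  (Plf a P → ∃ (f : Polynomial ℚ_[p]) (K : ℝ), f.natDegree ≤ a ∧ ∀ (L : ℕ) (x b : ℤ), 1 ≤ L →
    (p : ℤ) ^ L ∣ b * (1 - (p : ℤ) ^ ν * x * y) - x →
    ‖(1 - (p : ℚ_[p]) ^ ν * x * y) ^ a * ((P b : ℤ_[p]) : ℚ_[p]) - f.eval (x : ℚ_[p])‖ ≤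
      K * ((p : ℝ) ^ L)⁻¹) ∧
  (QPf a P → ∃ (r : ℤ → Polynomial ℚ_[p]) (K : ℝ), (∀ x, (r x).natDegree ≤ a) ∧
    (∀ x : ℤ, r (x + p) = r x) ∧ (∑ i ∈ Finset.range p, r (i : ℤ)) = 0 ∧
    ∀ (L : ℕ) (x b : ℤ), 1 ≤ L → (p : ℤ) ^ L ∣ b * (1 - (p : ℤ) ^ ν * x * y) - x →
    ‖(1 - (p : ℚ_[p]) ^ ν * x * y) ^ a * ((P b : ℤ_[p]) : ℚ_[p]) - (r x).eval (x : ℚ_[p])‖ ≤
      K * ((p : ℝ) ^ L)⁻¹)

/-- GR. The grid argument. Proof. For integers `x, y` and every `L` there are `c`, `b` with the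
two congruences (`1 - p^ν x y` is prime to `p`). By GP: for fixed `x` (roles of `x`, `y` exchanged)
`(1-p^ν x y)^a Hc x c` tends (`L → ∞`) to `rc_x,y (y)` (quasi-polynomial of sum zero in `y`), for fixed `y`
`(1-p^ν x y)^a Hb y b` tends to `rb_y,x (x)`; by the last hypothesis the two limits agree: call them
`h x y`. In the same way `f x y = lim (1-p^ν x y)^a Fc x c = lim (1-p^ν x y)^a Fb y b` is for fixed `x` a
polynomial of degree `≤ a` in `y`, and `f + 4h` is for fixed `y` a polynomial of degree `≤ a` in `x`.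
(A) A function on `ℤ` with values in `ℚ_p` which is a polynomial and a quasi-polynomial of sum
zero (`z ↦ (r z)(z)`, `r` `p`-periodic, `∑ r = 0`) is zero: the polynomial equals `r i` for each `i`
(infinitely many points), so `p` times it is zero. Let `D k (x,y) = ∑_j (-1)^j (a+1 choose j) k x (y+j)`.
`D f = 0` (degree `≤ a` in `y`), so `4 D h = D (f + 4h)` is for fixed `y` a polynomial in `x`; it is
also a quasi-polynomial of sum zero in `x` (finite sums of such are such), so `D h = 0` by (A). So for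
fixed `x` `h x y` is a polynomial in `y` (PL1-type argument over `ℚ_p`: each residue class; or: its
quasi-polynomials `r_i` satisfy `∑_j (-1)^j (a+1 choose j) r_(i+j)(X+j) = 0` ...; simplest: a function killed
by the `(a+1)`-st difference is a polynomial), and a quasi-polynomial of sum zero, so `h = 0` by
(A). Finally `h 0 0 = lim Hc 0 c` with `c ≡ 0` modulo `p^L`: take `c = 0`, `b = 0`: `h 0 0 = Hc 0 0`. -/
def StGr : Prop := StGp → StPl1 → ∀ (p : ℕ) (_ : Fact p.Prime) (a ν : ℕ)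
  (Fc Fb Hc Hb : ℤ → ℤ → ℤ_[p]), 1 ≤ ν → (∀ x, Plf a (Fc x)) →
  (∀ y, Plf a (fun b => Fb y b + 4 * Hb y b)) → (∀ x, QPf a (Hc x)) → (∀ y, QPf a (Hb y)) →
  (∀ (L : ℕ) (x y c b : ℤ), 2 ≤ L → (p : ℤ) ^ L ∣ c * (1 - (p : ℤ) ^ ν * x * y) - y →
    (p : ℤ) ^ L ∣ b * (1 - (p : ℤ) ^ ν * x * y) - x →
    (p : ℤ_[p]) ^ L ∣ Fc x c - Fb y b ∧ (p : ℤ_[p]) ^ L ∣ Hc x c - Hb y b) → Hc 0 0 = 0

/-- The content of GR. -/
def Gr : Prop := ∀ (p : ℕ) (_ : Fact p.Prime) (a ν : ℕ)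
  (Fc Fb Hc Hb : ℤ → ℤ → ℤ_[p]), 1 ≤ ν → (∀ x, Plf a (Fc x)) →
  (∀ y, Plf a (fun b => Fb y b + 4 * Hb y b)) → (∀ x, QPf a (Hc x)) → (∀ y, QPf a (Hb y)) →
  (∀ (L : ℕ) (x y c b : ℤ), 2 ≤ L → (p : ℤ) ^ L ∣ c * (1 - (p : ℤ) ^ ν * x * y) - y →
    (p : ℤ) ^ L ∣ b * (1 - (p : ℤ) ^ ν * x * y) - x →
    (p : ℤ_[p]) ^ L ∣ Fc x c - Fb y b ∧ (p : ℤ_[p]) ^ L ∣ Hc x c - Hb y b) → Hc 0 0 = 0

/-- CC. Two matrices with the same coordinates. Proof: `A = (1 b; 0 1) (1 0; Y 1)`, `Y = p^ν y`,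
`B = (1 0; C 1) (1 x; 0 1)`, `C = p^ν c`; `κ = A B⁻¹` has upper right entry `b (1 - x Y) - x`, divisible by
`p^L`, and lower left entry `Y - C (1 - x Y)`, divisible by `p^(L+ν)`; so `X(A w) - X(A v) =`
`X(κ B w) - X(κ B v) = X(B w) - X(B v)` (`EqC.diff`; `B w`, `B v` are nonzero). -/
def StCC : Prop := ∀ (p ν L : ℕ) (R : Type) (_ : AddCommGroup R) (X : ℤ → ℤ → R),
  SymP p L (L + ν) X → ∀ x y c b v1 v2 w1 w2 : ℤ, (v1 ≠ 0 ∨ v2 ≠ 0) → (w1 ≠ 0 ∨ w2 ≠ 0) →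
  (p : ℤ) ^ L ∣ c * (1 - (p : ℤ) ^ ν * x * y) - y →
  (p : ℤ) ^ L ∣ b * (1 - (p : ℤ) ^ ν * x * y) - x →
  X (w1 + x * w2) ((p : ℤ) ^ ν * c * (w1 + x * w2) + w2) -
    X (v1 + x * v2) ((p : ℤ) ^ ν * c * (v1 + x * v2) + v2) =
  X (w1 + b * ((p : ℤ) ^ ν * y * w1 + w2)) ((p : ℤ) ^ ν * y * w1 + w2) -
    X (v1 + b * ((p : ℤ) ^ ν * y * v1 + v2)) ((p : ℤ) ^ ν * y * v1 + v2)

/-- G5. The contradiction. Proof. Fix nonzero `v`, `w` and apply GR to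
`Fc x c = ψ((1 0; p^ν c 1)(1 x; 0 1) w) - ψ(... v)`, `Hc` the same for `G`,
`Fb y b = ψ((1 b; 0 1)(1 0; p^ν y 1) w) - ψ(... v)`, `Hb` the same for `G` (formulas of CC). `Plf (Fc x)`: the
hypothesis on `Nc a (p^ν) ψ` at the vectors `(1 0; p^ν c 1)(1 x; 0 1) w`, `... v` (nonzero), because
`(1 0; j p^ν 1)(1 0; p^ν c 1) = (1 0; p^ν (c+j) 1)`; `Plf (Fb y + 4 Hb y)`: `Nb a 1 (ψ + 4G)`. `QPf`: the
hypotheses on `G` with `(1 x; 0 1) w`, `(1 x; 0 1) v` resp. `(1 0; p^ν y 1) w`, `... v`. The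
congruences: CC for `redP L ψ` (level `(L, L+ν-1)`, so also level `(L, L+ν)`) and `redP L G`. So
`G w - G v = Hc 0 0 = 0`. -/
def StG5 : Prop := Gr → StCC → ∀ (p : ℕ) (_ : Fact p.Prime) (a ν : ℕ) (G ψ : ℤ → ℤ → ℤ_[p]), 1 ≤ ν →
  (∀ M : ℕ, 2 ≤ M → SymP p M (M + ν) (redP M G)) →
  (∀ M : ℕ, 2 ≤ M → SymP p M (M + ν - 1) (redP M ψ)) →
  (∀ h : ℤ, EqC (Nb a h (ψ + (4 : ℤ) • G)) 0) → (∀ c : ℤ, (p : ℤ) ^ ν ∣ c → EqC (Nc a c ψ) 0) →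
  (∀ v1 v2 w1 w2 : ℤ, (v1 ≠ 0 ∨ v2 ≠ 0) → (w1 ≠ 0 ∨ w2 ≠ 0) →
    QPf a (fun b => G (w1 + b * w2) w2 - G (v1 + b * v2) v2) ∧
    QPf a (fun c => G w1 ((p : ℤ) ^ ν * c * w1 + w2) - G v1 ((p : ℤ) ^ ν * c * v1 + v2))) →
  EqC G 0

/-- W1. The central component is a symbol of weight 2 modulo `p^M` of level `(M, M+ν)`. Proof. For
`κ = (α β; γ δ)`, `p^M ∣ β`, `p^(M+ν) ∣ γ`, `M ≥ 1`: `eqv` for `i = a` gives
`act κ (cp Φ a) ≈ pr Φ P`, `P = (αX+β)^a (γX+δ)^a` of degree `≤ 2a`; `P ≡ (αδ)^a X^a ≡ X^a` modulo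
`p^M` (all coefficients), since `αδ = 1 + βγ`; so `pr Φ P ≡ Φ_a` modulo `p^M` (`pr_eq_sum`). -/
def StW1 : Prop := ∀ (p : ℕ) (_ : Fact p.Prime) (a ν : ℕ) (Φ : ℤ → ℤ → ℕ → ℤ_[p]), 1 ≤ ν →
  WSymP p a ν Φ → ∀ M : ℕ, 1 ≤ M → SymP p M (M + ν) (redP M (cp Φ a))

/-- W2. Proof. `eqv` for `(1 b; 0 1)`, `p ∣ b`, `i = a`: `Φ_a(x + b y, y) = (pr Φ ((X+b)^a)) (x, y) + k_b`
away from the origin. For `b = j h`: `∑_j (-1)^j (a+1 choose j) (X + jh)^a = 0` in `ℤ[X]` (the `(a+1)`-st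
difference of a polynomial of degree `a` in `j`), so `Nb a h Φ_a` is constant. The same with
`(1 0; jc 1)`, `P = X^a (jcX+1)^a`. -/
def StW2 : Prop := ∀ (p : ℕ) (_ : Fact p.Prime) (a ν : ℕ) (Φ : ℤ → ℤ → ℕ → ℤ_[p]),
  WSymP p a ν Φ → (∀ h : ℤ, (p : ℤ) ∣ h → EqC (Nb a h (cp Φ a)) 0) ∧
    (∀ c : ℤ, (p : ℤ) ^ (ν + 1) ∣ c → EqC (Nc a c (cp Φ a)) 0)

/-- W3. Proof. Fix nonzero `v, w` and write `U(b)(P) = (pr Φ P)(n(b) w) - (pr Φ P)(n(b) v)`,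
`n(b) = (1 b; 0 1)`, additive in `P`. `V_j(b) = U(b)((X - b)^j)`, `j ≤ a`. By `tt` at the vectors `n(b) w`,
`n(b) v`: `∑_{i<p} U(b+i)((X-i)^j) = 0` for all `j ≤ 2a`; expand
`(X - i - b)^j = ∑_s (j choose s) (-b)^(j-s) (X-i)^s`: `∑_{i<p} V_j(b+i) = 0` for all `b`. So
`V_j(b+p) = V_j(b)` (difference of two such relations) and the sum over a period is zero. And
`G(n(b)w) - G(n(b)v) = U(b)(X^a) = ∑_{j ≤ a} (a choose j) b^(a-j) V_j(b)`: this is the form `QPf` with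
`V'_{a-j} = (a choose j) V_j` (and `0` for indices `> a`). Downwards: `n'(c) = (1 0; p^ν c 1)`, `U'(c)(P)` the
same with `n'(c)`, `V'_j(c) = U'(c)(X^j (1 - p^ν c X)^(2a-j))`, `j ≤ 2a`. By `ss` at `n'(c) w`, `n'(c) v`:
`∑_{i<p} U'(c+i)(X^j (1 - p^ν i X)^(2a-j)) = 0` for `j ≤ 2a`. With `A = X`, `B = 1 - p^ν i X`:
`1 - p^ν (c+i) X = B - p^ν c A`, so `X^j (1 - p^ν(c+i)X)^(2a-j) = ∑_s (2a-j choose s) (-p^ν c)^s A^(j+s) B^(2a-j-s)`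
and `∑_{i<p} V'_j(c+i) = 0`. And `X^a = X^a ((1 - p^ν c X) + p^ν c X)^a =`
`∑_s (a choose s) (p^ν c)^s X^(a+s) (1 - p^ν c X)^(a-s)`, so
`G(n'(c)w) - G(n'(c)v) = ∑_{s ≤ a} c^s ((a choose s) p^(νs) V'_{a+s}(c))`. -/
def StW3 : Prop := ∀ (p : ℕ) (_ : Fact p.Prime) (a ν : ℕ) (Φ : ℤ → ℤ → ℕ → ℤ_[p]),
  WSymP p a ν Φ → ∀ v1 v2 w1 w2 : ℤ, (v1 ≠ 0 ∨ v2 ≠ 0) → (w1 ≠ 0 ∨ w2 ≠ 0) →
    QPf a (fun b => cp Φ a (w1 + b * w2) w2 - cp Φ a (v1 + b * v2) v2) ∧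
    QPf a (fun c => cp Φ a w1 ((p : ℤ) ^ ν * c * w1 + w2) -
      cp Φ a v1 ((p : ℤ) ^ ν * c * v1 + v2))

/-- W4. Hecke words. Proof. For every `Ψ`, modulo `p^M` the `a`-component of `WT a l (p^M) Ψ` is
`l^a` times `Tl l (p^M)` of the `a`-component of `Ψ`: `(l X - p^M j)^a ≡ l^a X^a` and
`l^(2a-a) = l^a`. So by induction on the word the `a`-component of `WTw a (p^M) ls Φ` is modulo
`p^M` `(∏ l)^a` times `Tw (p^M) ls (redP M (cp Φ a))`, and `∏ l` is a unit modulo `p^M`; use `hk`. -/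
def StW4 : Prop := ∀ (p : ℕ) (_ : Fact p.Prime) (a ν : ℕ) (Φ : ℤ → ℤ → ℕ → ℤ_[p]),
  WSymP p a ν Φ → ∀ M : ℕ, 1 ≤ M → ∀ ls : List ℕ, Ok p ls →
    evw ((p : ℤ) ^ M) ls (redP M (cp Φ a)) = 0

/-- ZP. Assembly over `ℤ_p`: W1, W2, W3, W4, LB2 (with `G = cp Φ a`), POL, G5. -/
def StZp : Prop := StLa → StLb2 → UIp → StPol → Gr → StCC → StG5 → StW1 → StW2 → StW3 → StW4 →
  ∀ (p : ℕ) (_ : Fact p.Prime), TAp p → ∀ (a ν : ℕ) (Φ : ℤ → ℤ → ℕ → ℤ_[p]), 1 ≤ ν →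
  WSymP p a ν Φ → EqC (cp Φ a) 0

/-- The content of ZP. -/
def Zp : Prop := ∀ (p : ℕ) (_ : Fact p.Prime), TAp p →
  ∀ (a ν : ℕ) (Φ : ℤ → ℤ → ℕ → ℤ_[p]), 1 ≤ ν → WSymP p a ν Φ → EqC (cp Φ a) 0

/-- MAP. Additive maps. (a) `WSymP` is preserved by additive maps. (b) It is reflected by
injective ones: if `Φ' = lam∘Φ` satisfies `WSymP` and `lam` is injective then so does `Φ` (the constants
in `EqC` are differences of values, for instance at `(1, 0)`). (c) It only depends on the classes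
modulo constants and on the components `i ≤ 2a`: if `EqC (cp Φ' i) (cp Φ i)` for all `i ≤ 2a` and
`WSymP Φ` then `WSymP Φ'`. For `hk` in (c): `WT a l m` maps families equal up to constants (away from the
origin, components `≤ 2a`) to such: `(l X - m j)^i` has degree `i`, and the vectors
`(x + m j y, l y)`, `(l x, y)` are nonzero (`l ≥ 1`). `pr` commutes with additive maps. In (c)
homogeneity of `cp Φ' i` follows from that of `cp Φ i` (same constant). -/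
def StMap : Prop := ∀ (p a ν : ℕ), p ≠ 0 → ∀ (R S : Type) (_ : AddCommGroup R) (_ : AddCommGroup S)
  (lam : R →+ S) (Φ : ℤ → ℤ → ℕ → R),
  (WSymP p a ν Φ → WSymP p a ν (fun x y i => lam (Φ x y i))) ∧
  (Function.Injective lam → WSymP p a ν (fun x y i => lam (Φ x y i)) → WSymP p a ν Φ) ∧
  ∀ Φ' : ℤ → ℤ → ℕ → R, (∀ i : ℕ, i ≤ 2 * a → EqC (cp Φ' i) (cp Φ i)) → WSymP p a ν Φ →
    WSymP p a ν Φ'

/-- DEN. Bounded denominators. Proof. (i) Two matrices `g`, `g'` of determinant one which agree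
modulo `p^(ν+1)` satisfy `g = κ g'` with `κ ≡ 1` modulo `p^(ν+1)`, so `κ` is in the group and by `eqv`
`Φ_i(g∞) - Φ_i(g0)` is an integral combination of the `Φ_s(g'∞) - Φ_s(g'0)`, `s ≤ 2a`. There
are finitely many classes; let `N ≥ 1` be a common denominator of the values for one representative of each
class and all `s ≤ 2a`. So `N (Φ_i(g∞) - Φ_i(g0))` is an integer for all `g` (`g∞ = (a, c)`,
`g0 = (b, d)`). (ii) FAR for `R = ℚ ⧸ (integers)` and `N Φ_i`: `N Φ_i(v) - N Φ_i(1,0)` is an integer for all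
nonzero `v`. Let `Ψ v i` be this integer. (iii) `WSymP` for `Ψ` by MAP (a), (c), (b). -/
def StDen : Prop := StFar → StMap → ∀ (p a ν : ℕ) (Φ : ℤ → ℤ → ℕ → ℚ), p.Prime → WSymP p a ν Φ →
  ∃ (N : ℤ) (Ψ : ℤ → ℤ → ℕ → ℤ), N ≠ 0 ∧ WSymP p a ν Ψ ∧
    ∀ i : ℕ, i ≤ 2 * a → EqC (fun x y => ((Ψ x y i : ℤ) : ℚ)) (N • cp Φ i)

/-- QC. From `ℤ_p` to `ℂ`. Proof. Let `lam : ℂ →ₗ[ℚ] ℚ`; by MAP and DEN there is an integral
`Ψ` with `WSymP Ψ`, `Ψ_a ≈ N lam∘Φ_a`; ZP for its image in `ℤ_[p]` gives `Ψ_a ≈ 0`, so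
`lam (Φ_a(v) - Φ_a(1,0)) = 0` for nonzero `v`. A complex number killed by all `ℚ`-linear `lam` is `0`
(`Module.forall_dual_apply_eq_zero_iff`). -/
def StQC : Prop := Zp → StMap → StDen → ∀ (p : ℕ) (_ : Fact p.Prime), TAp p →
  ∀ (a ν : ℕ) (Φ : ℤ → ℤ → ℕ → ℂ), 1 ≤ ν → WSymP p a ν Φ → EqC (cp Φ a) 0

/-- ALL. All components. Proof. `eqv` for `(1 b; 0 1)`, `p ∣ b`, `i = a`: `pr Φ ((X+b)^a) ≈ act (1 b; 0 1) Φ_a ≈ 0`,
that is `∑_s (a choose s) b^(a-s) Φ_s ≈ 0` for `b = 0, p, ..., a p`: a Vandermonde system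
(or: divided differences in `b`), so `(a choose s) Φ_s ≈ 0` for all `s ≤ a` and `Φ_s ≈ 0`. In the same way
with `(1 0; c 1)`, `p^(ν+1) ∣ c`: `pr Φ (X^a (cX+1)^a) = ∑_s (a choose s) c^s Φ_{a+s} ≈ 0`. -/
def StAll : Prop := ∀ (p a ν : ℕ) (Φ : ℤ → ℤ → ℕ → ℂ), p.Prime → WSymP p a ν Φ → EqC (cp Φ a) 0 →
  ∀ i : ℕ, i ≤ 2 * a → EqC (cp Φ i) 0

end Pool.Agent.Helper28.WK
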