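import Pool.Agent.Helper28.WK.StC
import Pool.Agent.Helper14.WK.StA

/-!
# The Eichler potentials of a newform with root number `+1` satisfy `IData`
-/

set_option autoImplicit false

open Pool.Agent.Helper14.CV (G0 Homog EqC act)
open Pool.Agent.Helper14.WK
open scoped MatrixGroups

namespace Pool.Agent.Helper28.WK

theorem hBrg (hA4 : SKA4) (hMod : SKMod) (hP1 : SKP1) (hP2 : SKP2) (hH3 : SKH3) (hA8 : SKA8)
    (hN4 : SKN4) (hP5 : SKP5) (hP6 : SKP6) (hP4 : SKP4)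
    (p A ν : ℕ) (hp : p.Prime) (hν : 1 ≤ ν) (hne : NeZero (p ^ (ν + 2)))
    (hk : 0 < (2 * A + 2 : ℤ))
    (f : CuspForm (G0 (p ^ (ν + 2))) (2 * A + 2)) (hf : IsNewformK p (ν + 2) f)
    (hε : RootOneK hk f) :
    ∃ I : ℤ → ℤ → ℕ → ℂ, IsPotK A f I ∧ IData p A ν I := by
  obtain ⟨I, hI, hinf⟩ := hA4 (p ^ (ν + 2)) hne A f
  obtain ⟨hN4a, hN4b⟩ := hN4 p (ν + 2) hne A hk f hp (by omega) hf
  refine ⟨I, hI, ?_⟩
  constructor
  · exact hP1 _ hne A f I hI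
  · exact hinf
  · intro α β γ δ hdet hγ i hi
    have hM := hMod (p ^ (ν + 2)) hne A f α β γ δ hdet (by push_cast; exact hγ)
    obtain ⟨C, hC⟩ := hP2 (p ^ (ν + 2)) hne A f I α β γ δ 1 hI (by rw [hdet]; norm_num)
      (fun z hz => by rw [hM z hz, one_mul]) i hi
    refine ⟨C, fun x y hxy => ?_⟩
    have h1 := hC x y hxy
    rw [hdet] at h1
    simp only [Int.cast_one, one_mul, mp] at h1
    exact h1
  · intro j hj
    refine ⟨0, fun x y hxy => ?_⟩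
    have h1 := hP5 (p ^ (ν + 2)) hne A f I p hp.pos hI
      (fun z hz => hN4b hε z hz) j hj x y hxy
    simp only [Pi.zero_apply, add_zero]
    exact h1
  · intro j hj
    obtain ⟨C, hC⟩ := hP6 (p ^ (ν + 2)) hne A f I p (p ^ (ν + 1)) hI (by
      intro z hz
      have := hN4a z hz
      simpa using this) j hj
    refine ⟨C, fun x y hxy => ?_⟩
    have h1 := hC x y hxy
    simp only [Pi.zero_apply, zero_add]
    rw [← h1]
    refine Finset.sum_congr rfl fun i _ => ?_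
    have e1 : (Polynomial.X ^ j * (1 - Polynomial.C ((p : ℤ) ^ (ν + 1) * i) * Polynomial.X) ^
        (2 * A - j) : Polynomial ℤ) = mp A 1 0 (-(i * (p ^ (ν + 1) : ℕ) : ℤ)) 1 j := by
      unfold mp
      congr 1
      · simp
      · congr 1
        push_cast
        simp only [Polynomial.C_mul, Polynomial.C_neg, Polynomial.C_1]
        ring
    rw [e1]
    congr 1
    push_cast
    ring
  · have h1 := hP4 (p ^ (ν + 2)) hne A f I hI (hA8 (p ^ (ν + 2)) hne A hk f hε)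
    have e : ((p ^ (ν + 2) : ℕ) : ℤ) = (p : ℤ) ^ (ν + 2) := by push_cast; rfl
    rw [← e]
    exact h1
  · refine ⟨fun l => fcK f l, fun l m hl hlp hm i hi x y hxy => ?_⟩
    exact hH3 (p ^ (ν + 2)) hne A f I l (fcK f l) m hI hl.pos (hf.hecke l hl hlp) hm i hi x y hxy

/-- Final statement for the prime `p`, weight `2A+2 ≥ 4`, level `p^(ν+2) ≥ p^3`. -/
theorem hFin (hA4 : SKA4) (hMod : SKMod) (hP1 : SKP1) (hP2 : SKP2) (hH3 : SKH3) (hA8 : SKA8)
    (hN4 : SKN4) (hP5 : SKP5) (hP6 : SKP6) (hP4 : SKP4) (hA5 : SKA5) (hIN : SKIN)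
    (hTr : StTr) (hTr2 : StTr2) (hAll : StAll)
    (p : ℕ) (hp : p.Prime)
    (hQC : ∀ (a ν : ℕ) (Φ : ℤ → ℤ → ℕ → ℂ), 1 ≤ ν → WSymP p a ν Φ → EqC (cp Φ a) 0)
    (A ν : ℕ) (hA : 1 ≤ A) (hν : 1 ≤ ν) (hne : NeZero (p ^ (ν + 2)))
    (hk : 0 < (2 * A + 2 : ℤ))
    (f : CuspForm (G0 (p ^ (ν + 2))) (2 * A + 2)) (hf : IsNewformK p (ν + 2) f)
    (hε : RootOneK hk f) : LanK hk f (1 / 2) ≠ 0 := by
  intro hL
  obtain ⟨I, hI, hD⟩ := hBrg hA4 hMod hP1 hP2 hH3 hA8 hN4 hP5 hP6 hP4 p A ν hp hν hne hk f hf hε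
  have h0 := hA5 (p ^ (ν + 2)) hne A hk f I hI hL
  have hW := hTr p A ν I hp hD h0
  have hc := hAll p A ν _ hp hW (hQC A ν _ hν hW)
  have hz := hTr2 p A ν I hp hD hc
  have h1 := hIN (p ^ (ν + 2)) hne A f I hA hI hz 1 le_rfl
  rw [hf.normalised] at h1
  exact one_ne_zero h1

end Pool.Agent.Helper28.WK
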