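import Pool.Agent.Helper28.WK.StB

/-!
# Project WK: statements, part C (interface with the analytic part)

`n = ν + 2`, level `p^n`, weight `2a+2`. `I x y i` is the integral of `f(z) z^i dz` from `i∞` to
the cusp `x/y`, `i ≤ 2a`; vectors act by `v = (x, y)`.
-/

set_option autoImplicit false

open Pool.Agent.Helper14.CV

namespace Pool.Agent.Helper28.WK

/-- The properties of the Eichler potentials of a newform with root number `+1`. -/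
structure IData (p a ν : ℕ) (I : ℤ → ℤ → ℕ → ℂ) : Prop where
  hom : ∀ i : ℕ, i ≤ 2 * a → Homog (cp I i)
  inf : ∀ i : ℕ, i ≤ 2 * a → I 1 0 i = 0
  eqv : ∀ α β γ δ : ℤ, α * δ - β * γ = 1 → (p : ℤ) ^ (ν + 2) ∣ γ → ∀ i : ℕ, i ≤ 2 * a →
    EqC (act α β γ δ (cp I i)) (pr I ((Polynomial.C α * Polynomial.X + Polynomial.C β) ^ i *
      (Polynomial.C γ * Polynomial.X + Polynomial.C δ) ^ (2 * a - i)))
  tt : ∀ j : ℕ, j ≤ 2 * a → EqC (fun x y => ∑ i ∈ Finset.range p,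
    pr I ((Polynomial.C (p : ℤ) * Polynomial.X - Polynomial.C (i : ℤ)) ^ j)
      (p * x + i * y) (p * y)) 0
  ss : ∀ j : ℕ, j ≤ 2 * a → EqC (fun x y => ∑ i ∈ Finset.range p,
    pr I (Polynomial.X ^ j *
      (1 - Polynomial.C ((p : ℤ) ^ (ν + 1) * i) * Polynomial.X) ^ (2 * a - j))
      x ((p : ℤ) ^ (ν + 1) * i * x + y)) 0
  fr : EqC (act 0 (-1) ((p : ℤ) ^ (ν + 2)) 0 (cp I a)) (-(cp I a))
  hk : ∃ lam : ℕ → ℂ, ∀ (l : ℕ) (m : ℤ), l.Prime → l ≠ p → IsCoprime m (l : ℤ) →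
    ∀ i : ℕ, i ≤ 2 * a → ∀ x y : ℤ, (x ≠ 0 ∨ y ≠ 0) →
    (∑ j ∈ Finset.range l, pr I ((Polynomial.C (l : ℤ) * Polynomial.X -
      Polynomial.C (m * j)) ^ i) (x + m * j * y) (l * y)) +
      ((l : ℤ) ^ (2 * a - i)) • I (l * x) y i = lam l * I x y i

/-- The symmetrised potentials in the coordinate `p z`. -/
noncomputable def PhiOf (p a : ℕ) (I : ℤ → ℤ → ℕ → ℂ) : ℤ → ℤ → ℕ → ℂ := fun x y i =>
  ((p : ℤ) ^ i) • I x (p * y) i + ((-1 : ℤ) ^ (a + i) * (p : ℤ) ^ i) • I (-x) (p * y) i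

/-- TR. Transport. Proof. For `P` of degree `≤ 2a`,
`pr Φ P (x, y) = pr I (P(pX)) (x, py) + (-1)^a pr I (P(-pX)) (-x, py)` (0), `Φ = PhiOf p a I`.
`hom`: from `I`. `eqv`: `κ = (α β; γ δ)`, `p ∣ β`, `p^(ν+1) ∣ γ`: `(κ(x,y)) = (x', y')` has
`(x', p y') = (α β/p; pγ δ) (x, py)` and `(-x', p y') = (α -β/p; -pγ δ) (-x, py)`; apply `I.eqv` to
both and compare with (0). `tt`: by (0) the sum is `∑_i pr I ((pX-i)^j) (x+iy, py)` plus
`(-1)^(a+j) ∑_i pr I ((pX+i)^j) (-x-iy, py)`; the first is `I.tt` at `(x, py)` (`Homog`: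
`(p x + i p y, p p y) = p (x + i y, p y)`). Put `T(i) = pr I ((pX-i)^j) (-x+iy, py)`; the second sum is
over `T(-i)`, `i < p`, and `T(i+p) ≈ T(i)` (functions of `(x,y)`) by `I.eqv` for `(1 1; 0 1)` (which gives
`act 1 1 0 1 (pr I P) ≈ pr I (P(X+1))` for `P` of degree `≤ 2a`), so it is `≈ ∑_{i<p} T(i) ≈ 0` by
`I.tt` at `(-x, py)`. `ss`: the same, `i`-th term of the first sum:
`pr I (p^j X^j (1 - p^(ν+1) i X)^(2a-j)) (x, p^(ν+1) i x + p y)`, that is `I.ss` at `(x, py)`; second sum with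
`-i` and the vector `(-x, py)`, using `(1 0; p^(ν+2) 1)`. `fr`: `Φ_a(-y, p^ν x)` contains
`I_a(-y, p^(ν+1) x) = I_a(-p y, p^(ν+2) x) ≈ -I_a(x, p y)` and `I_a(y, p^(ν+1) x)`, the same at `(-x, py)` up to
the sign of the vector. `st`: clear (`(-1)^(a+a) = 1`). `hk`: by (0) and `I.hk` with `m = p^(M-1)` at
`(x, py)` and `m = -p^(M-1)` at `(-x, py)`: `(WT a l (p^M) Φ) x y i = lam l * Φ x y i` for `i ≤ 2a`, `(x,y)`
nonzero; so a word multiplies `Φ` by a constant there, `Φ_a(1,0) = 0` and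
`Φ_a(0,1) = 2 p^a I_a(0,p) = 0`. -/
def StTr : Prop := ∀ (p a ν : ℕ) (I : ℤ → ℤ → ℕ → ℂ), p.Prime → IData p a ν I → I 0 1 a = 0 →
  WSymP p a ν (PhiOf p a I)

/-- TR2. Back: `Φ_i` is constant for `i ≤ 2a` and `Φ_i(1,0) = 0`, so `Φ_i = 0` away from the origin; at
`(p x, y)`: `p^i (I_i(p x, p y) + (-1)^(a+i) I_i(-p x, p y)) = 0` and `Homog`. -/
def StTr2 : Prop := ∀ (p a ν : ℕ) (I : ℤ → ℤ → ℕ → ℂ), p.Prime → IData p a ν I →
  (∀ i : ℕ, i ≤ 2 * a → EqC (cp (PhiOf p a I) i) 0) →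
  ∀ i : ℕ, i ≤ 2 * a → ∀ x y : ℤ, (x ≠ 0 ∨ y ≠ 0) → I x y i + (-1) ^ (a + i) * I (-x) y i = 0

end Pool.Agent.Helper28.WK
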