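import Pool.Agent.Helper14.CV.StD

/-!
# Project WK (all weights, level `2^n`): definitions

Continuation of project CV (Pool/Agent/Helper14/CV): `Homog`, `EqC`, `act`, `Sym`, `Tl`, `ev` are
the ones of CV. The weight is `k = 2 a + 2`, the level `2^n`, `n = ν + 2`. A symbol of weight `k`
is given by potentials `Φ p q i`, `i ≤ 2a`: the value of the symbol of the path from the cusp `v` to
the cusp `w` on the polynomial `∑ c_i X^i` is `∑ c_i (Φ w i - Φ v i)`. Coordinates: `x = 2 z`, the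
group is `{(α β; γ δ) | 2 ∣ β, 2^(ν+1) ∣ γ}`.
-/

set_option autoImplicit false

open Pool.Agent.Helper14.CV

namespace Pool.Agent.Helper28.WK

/-- The value of `Φ` at the vector `(p, q)` on an integral polynomial. -/
noncomputable def pr {R : Type} [AddCommGroup R] (Φ : ℤ → ℤ → ℕ → R) (P : Polynomial ℤ) :
    ℤ → ℤ → R :=
  fun p q => P.sum fun i c => c • Φ p q i

/-- The `i`-th component. -/
def cp {R : Type} (Φ : ℤ → ℤ → ℕ → R) (i : ℕ) : ℤ → ℤ → R := fun p q => Φ p q i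

/-- The Hecke operator of weight `2a+2` with representatives `(l 0; 0 1)` and `(1 mj; 0 l)`. -/
noncomputable def WT {R : Type} [AddCommGroup R] (a l : ℕ) (m : ℤ) (Φ : ℤ → ℤ → ℕ → R) :
    ℤ → ℤ → ℕ → R :=
  fun p q i => (∑ j ∈ Finset.range l,
    pr Φ ((Polynomial.C (l : ℤ) * Polynomial.X - Polynomial.C (m * j)) ^ i) (p + m * j * q) (l * q)) +
    ((l : ℤ) ^ (2 * a - i)) • Φ (l * p) q i

/-- Symbols of weight `2a+2` and level `2^(ν+2)` (in the coordinate `x = 2z`), anti-invariant under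
`(1 1; 0 1)` and `(1 0; 2^ν 1)`, with central component anti-invariant under the Fricke
involution and invariant under `*`, and killed by all `T_3^i T_5^j` applied to the central path. -/
structure WSym {R : Type} [AddCommGroup R] (a ν : ℕ) (Φ : ℤ → ℤ → ℕ → R) : Prop where
  hom : ∀ i : ℕ, i ≤ 2 * a → Homog (cp Φ i)
  eqv : ∀ α β γ δ : ℤ, α * δ - β * γ = 1 → 2 ∣ β → (2 : ℤ) ^ (ν + 1) ∣ γ → ∀ i : ℕ, i ≤ 2 * a →
    EqC (act α β γ δ (cp Φ i)) (pr Φ ((Polynomial.C α * Polynomial.X + Polynomial.C β) ^ i *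
      (Polynomial.C γ * Polynomial.X + Polynomial.C δ) ^ (2 * a - i)))
  tt : ∀ i : ℕ, i ≤ 2 * a →
    EqC (act 1 1 0 1 (cp Φ i)) (-(pr Φ ((Polynomial.X + 1) ^ i)))
  ss : ∀ i : ℕ, i ≤ 2 * a →
    EqC (act 1 0 (2 ^ ν) 1 (cp Φ i))
      (-(pr Φ (Polynomial.X ^ i * (Polynomial.C ((2 : ℤ) ^ ν) * Polynomial.X + 1) ^ (2 * a - i))))
  fr : EqC (act 0 (-1) (2 ^ ν) 0 (cp Φ a)) (-(cp Φ a))
  st : EqC (act (-1) 0 0 1 (cp Φ a)) (cp Φ a)
  hk : ∀ M : ℕ, 1 ≤ M → ∀ i j : ℕ,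
    ((WT a 3 (2 ^ M))^[i] ((WT a 5 (2 ^ M))^[j] Φ)) 1 0 a =
      ((WT a 3 (2 ^ M))^[i] ((WT a 5 (2 ^ M))^[j] Φ)) 0 1 a

/-- Reduction modulo `2^M` of a `2`-adic potential. -/
noncomputable def red (M : ℕ) (G : ℤ → ℤ → ℤ_[2]) : ℤ → ℤ → ZMod (2 ^ M) :=
  fun p q => PadicInt.toZModPow M (G p q)

/-- `∑_j (-1)^j (a+1 choose j) G∘(1 jh; 0 1)`. -/
def Nb {R : Type} [AddCommGroup R] (a : ℕ) (h : ℤ) (G : ℤ → ℤ → R) : ℤ → ℤ → R :=
  fun p q => ∑ j ∈ Finset.range (a + 2), ((-1 : ℤ) ^ j * ((a + 1).choose j : ℤ)) • G (p + j * h * q) q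

/-- `∑_j (-1)^j (a+1 choose j) G∘(1 0; jc 1)`. -/
def Nc {R : Type} [AddCommGroup R] (a : ℕ) (c : ℤ) (G : ℤ → ℤ → R) : ℤ → ℤ → R :=
  fun p q => ∑ j ∈ Finset.range (a + 2), ((-1 : ℤ) ^ j * ((a + 1).choose j : ℤ)) • G p (j * c * p + q)

/-- `∑_j (a+1 choose j) G∘(1 j; 0 1)`. -/
def Pb {R : Type} [AddCommGroup R] (a : ℕ) (G : ℤ → ℤ → R) : ℤ → ℤ → R :=
  fun p q => ∑ j ∈ Finset.range (a + 2), ((a + 1).choose j : ℤ) • G (p + j * q) q

/-- `∑_j (a+1 choose j) G∘(1 0; jc 1)`. -/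
def Pc {R : Type} [AddCommGroup R] (a : ℕ) (c : ℤ) (G : ℤ → ℤ → R) : ℤ → ℤ → R :=
  fun p q => ∑ j ∈ Finset.range (a + 2), ((a + 1).choose j : ℤ) • G p (j * c * p + q)

end Pool.Agent.Helper28.WK
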