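import Pool.Agent.Helper14.WK.Defs

/-!
# `LanK` is the entire continuation of the Dirichlet series in the analytic normalisation
-/

set_option autoImplicit false

open Pool.Agent.Helper14.CV (G0)
open Pool.Agent.Helper14.WK

namespace Pool.Agent.Helper28.WK

theorem hKLs (N : ℕ) (hN : NeZero N) (k : ℤ) (hk : 0 < k) (hk1 : k ≠ 1) (f : CuspForm (G0 N) k) :
    Differentiable ℂ (LanK hk f) ∧
    ∀ s : ℂ, 3 / 2 < s.re →
      HasSum (fun m : ℕ => fcK f m / (m : ℂ) ^ (((k : ℂ) - 1) / 2) / (m : ℂ) ^ s)
        (LanK hk f s) := by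
  have hk1' : 1 < k := by omega
  have hkR : (1 : ℝ) < (k : ℝ) := by exact_mod_cast hk1'
  have hre0 : (((k : ℂ) - 1) / 2).re = ((k : ℝ) - 1) / 2 := by
    rw [show (((k : ℂ) - 1) / 2) = ((((k : ℝ) - 1) / 2 : ℝ) : ℂ) by push_cast; rfl]
    exact Complex.ofReal_re _
  constructor
  · have h1 : Differentiable ℂ (ModularForm.L hk f) := CuspForm.differentiable_L hk f
    have h2 : Differentiable ℂ fun s : ℂ => s + ((k : ℂ) - 1) / 2 := by fun_prop
    exact h1.comp h2
  · intro s hs
    have hre' : (s + ((k : ℂ) - 1) / 2).re = s.re + ((k : ℝ) - 1) / 2 := by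
      rw [Complex.add_re, hre0]
    have hre : (k : ℝ) / 2 + 1 < (s + ((k : ℂ) - 1) / 2).re := by
      rw [hre']
      linarith
    have h1 := CuspForm.hasSum_L hk f hre
    rw [CongruenceSubgroup.strictWidthInfty_Gamma0] at h1
    rw [Complex.ofReal_one, Complex.one_cpow, one_mul] at h1
    have h2 : (fun m : ℕ => fcK f m / (m : ℂ) ^ (((k : ℂ) - 1) / 2) / (m : ℂ) ^ s) =
        fun n : ℕ => (UpperHalfPlane.qExpansion (1 : ℝ) (f : UpperHalfPlane → ℂ)).coeff n /
          (n : ℂ) ^ (s + ((k : ℂ) - 1) / 2) := by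
      funext m
      rcases Nat.eq_zero_or_pos m with hm | hm
      · subst hm
        have h4 : s + ((k : ℂ) - 1) / 2 ≠ 0 := by
          intro h
          have := congrArg Complex.re h
          rw [hre', Complex.zero_re] at this
          linarith
        have h5 : ((k : ℂ) - 1) / 2 ≠ 0 := by
          intro h
          have := congrArg Complex.re h
          rw [hre0, Complex.zero_re] at this
          linarith
        rw [Nat.cast_zero, Complex.zero_cpow h5, Complex.zero_cpow h4, div_zero, div_zero,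
          zero_div]
      · have hmC : (m : ℂ) ≠ 0 := by exact_mod_cast hm.ne'
        rw [Complex.cpow_add _ _ hmC, div_div, mul_comm ((m : ℂ) ^ (((k : ℂ) - 1) / 2))]
        rfl
    rw [h2]
    exact h1

end Pool.Agent.Helper28.WK
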