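import Pool.Agent.Helper28.WK.StB

/-!
# Assembly over `ℤ_p`
-/

set_option autoImplicit false

open Pool.Agent.Helper14.CV (Homog EqC act)

namespace Pool.Agent.Helper28.WK

theorem hZp : StZp := by
  intro la lb ui pol gr cc g5 w1 w2 w3 w4 p hp hTA a ν Φ hν hW
  have hG : ∀ M : ℕ, 2 ≤ M → SymP p M (M + ν) (redP M (cp Φ a)) :=
    fun M hM => w1 p hp a ν Φ hν hW M (by omega)
  obtain ⟨ψ, hψ1, hψ2, hψ3⟩ := lb la ui p hp hTA ν (cp Φ a) hν (hW.hom a (by omega)) hG hW.fr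
    hW.st (fun M hM ls hls => w4 p hp a ν Φ hW M (by omega) ls hls)
  obtain ⟨hb, hc⟩ := w2 p hp a ν Φ hW
  obtain ⟨hb', hc'⟩ := pol p hp a ν (cp Φ a) ψ hν (hW.hom a (by omega)) hψ1 hψ2 hψ3 hb hc
  exact g5 gr cc p hp a ν (cp Φ a) ψ hν hG hψ2 hb' hc' (w3 p hp a ν Φ hW)

end Pool.Agent.Helper28.WK
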