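import Pool.Agent.Helper38.CV.M_Far
import Pool.Agent.Helper10.CV.M_N1
import Pool.Agent.Helper82.WK.M_UIp
import Pool.Agent.Helper10.WK.M_La
import Pool.Agent.Helper16.WK.M_Lb2
import Pool.Agent.Helper63.WK.M_Pol
import Pool.Agent.Helper2.WK.M_Pl1
import Pool.Agent.Helper2.WK.M_Gr
import Pool.Agent.Helper86.WK.M_Gp
import Pool.Agent.Helper99.WK.M_CC
import Pool.Agent.Helper15.WK.M_G5
import Pool.Agent.Helper36.WK.M_W1
import Pool.Agent.Helper28.WK.M_W2
import Pool.Agent.Helper1.WK.M_W3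
import Pool.Agent.Helper97.WK.M_W4
import Pool.Agent.Helper47.WK.M_Map
import Pool.Agent.Helper66.WK.M_Den
import Pool.Agent.Helper21.WK.M_QC
import Pool.Agent.Helper32.WK.M_All
import Pool.Agent.Helper28.WK.M_Zp
import Pool.Agent.Helper12.WK.M_Tr
import Pool.Agent.Helper32.WK.M_Tr2
import Pool.Agent.Helper28.WK.M_Brg
import Pool.Agent.Helper28.WK.M_KLs
import Pool.Agent.Helper63.WK.M_KA1
import Pool.Agent.Helper92.WK.M_KA1b
import Pool.Agent.Helper6.WK.M_KE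
import Pool.Agent.Helper80.WK.M_KA3
import Pool.Agent.Helper32.WK.M_KMod
import Pool.Agent.Helper83.WK.M_KA4
import Pool.Agent.Helper69.WK.M_KP1
import Pool.Agent.Helper53.WK.M_KP2
import Pool.Agent.Helper10.WK.M_KP4
import Pool.Agent.Helper66.WK.M_KP5
import Pool.Agent.Helper22.WK.M_KP6
import Pool.Agent.Helper86.WK.M_KA5
import Pool.Agent.Helper43.WK.M_KA8
import Pool.Agent.Helper22.WK.M_KN2
import Pool.Agent.Helper7.WK.M_KN3
import Pool.Agent.Helper21.WK.M_KN4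
import Pool.Agent.Helper82.WK.M_KB1
import Pool.Agent.Helper81.WK.M_KB2
import Pool.Agent.Helper90.WK.M_KB3
import Pool.Agent.Helper67.WK.M_KIN
import Pool.Agent.Helper79.WK.M_KH1
import Pool.Agent.Helper99.WK.M_KH2
import Pool.Agent.Helper62.WK.M_KH3

/-!
# From Theorem A for the prime `p` to central values of newforms of weight `≥ 4`, level `p^n`
-/

set_option autoImplicit false

open Pool.Agent.Helper14.CV Pool.Agent.Helper14.WK

namespace Pool.Agent.Helper28.WK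

/-- The central component of a symbol of weight `2a+2` as in `WSymP` is constant. -/
theorem center (p : ℕ) (hp : p.Prime) (hTA : TAp p) (a ν : ℕ) (Φ : ℤ → ℤ → ℕ → ℂ)
    (hν : 1 ≤ ν) (hW : WSymP p a ν Φ) : EqC (cp Φ a) 0 := by
  have far := Pool.Agent.Helper38.CV.hFar
  have ui := Pool.Agent.Helper82.WK.hUIp far
  have pl1 := Pool.Agent.Helper2.WK.hPl1
  have gr := Pool.Agent.Helper2.WK.hGr Pool.Agent.Helper86.WK.hGp pl1
  have zp := hZp Pool.Agent.Helper10.WK.hLa Pool.Agent.Helper16.WK.hLb2 ui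
    Pool.Agent.Helper63.WK.hPol gr
    Pool.Agent.Helper99.WK.hCC Pool.Agent.Helper15.WK.hG5 Pool.Agent.Helper36.WK.hW1
    hW2 Pool.Agent.Helper1.WK.hW3 Pool.Agent.Helper97.WK.hW4
  exact Pool.Agent.Helper21.WK.hQC zp Pool.Agent.Helper47.WK.hMap
    Pool.Agent.Helper66.WK.hDen p ⟨hp⟩ hTA a ν Φ hν hW

/-- Theorem A for the prime `p` implies: the central values of the newforms of weight
`2A+2 ≥ 4`, level `p^n`, `n ≥ 3`, root number `+1` are not zero. -/
theorem gen (p : ℕ) (hp : p.Prime) (hTA : TAp p) (A n : ℕ) (hA : 1 ≤ A) (hn : 3 ≤ n)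
    (hne : NeZero (p ^ n)) (hk : 0 < (2 * A + 2 : ℤ))
    (f : CuspForm (G0 (p ^ n)) (2 * A + 2)) (hf : IsNewformK p n f)
    (hε : RootOneK hk f) : LanK hk f (1 / 2) ≠ 0 := by
  obtain ⟨ν, rfl⟩ : ∃ ν, n = ν + 2 := ⟨n - 2, by omega⟩
  have a1 := Pool.Agent.Helper63.WK.hKA1
  have a1b := Pool.Agent.Helper92.WK.hKA1b a1
  have ke := Pool.Agent.Helper6.WK.hKE a1
  have a3 := Pool.Agent.Helper80.WK.hKA3 ke
  have kmod := Pool.Agent.Helper32.WK.hKMod
  have a4 := Pool.Agent.Helper83.WK.hKA4 a1 a1b ke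
  have p1 := Pool.Agent.Helper69.WK.hKP1
  have p2 := Pool.Agent.Helper53.WK.hKP2 a3 p1
  have h1 := Pool.Agent.Helper79.WK.hKH1 a1
  have h2 := Pool.Agent.Helper99.WK.hKH2 h1 ke a1b
  have h3 := Pool.Agent.Helper62.WK.hKH3 h2 p1
  have a8 := Pool.Agent.Helper43.WK.hKA8 a1
  have n3 := Pool.Agent.Helper7.WK.hKN3 h1 kmod Pool.Agent.Helper10.CV.hN1
  have n4 := Pool.Agent.Helper21.WK.hKN4 kmod a8 Pool.Agent.Helper22.WK.hKN2 n3
  have p5 := Pool.Agent.Helper66.WK.hKP5 ke a1b p1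
  have p6 := Pool.Agent.Helper22.WK.hKP6 ke p1
  have p4 := Pool.Agent.Helper10.WK.hKP4 p2
  have a5 := Pool.Agent.Helper86.WK.hKA5 a1 a1b ke
  have b1 := Pool.Agent.Helper82.WK.hKB1
  have b2 := Pool.Agent.Helper81.WK.hKB2 a1 a1b ke b1
  have b3 := Pool.Agent.Helper90.WK.hKB3 a1 b1
  have kin := Pool.Agent.Helper67.WK.hKIN b1 b2 b3 p1
  exact hFin a4 kmod p1 p2 h3 a8 n4 p5 p6 p4 a5 kin Pool.Agent.Helper12.WK.hTr
    Pool.Agent.Helper32.WK.hTr2 Pool.Agent.Helper32.WK.hAll p hp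
    (fun a ν Φ hν hW => center p hp hTA a ν Φ hν hW)
    A ν hA (by omega) hne hk f hf hε

end Pool.Agent.Helper28.WK
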