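import Pool.Agent.Helper28.WK.StA
import Pool.Agent.Helper28.WK.StB

/-!
# Theorem A for `p = 2` in the form `TAp 2`
-/

set_option autoImplicit false

open Pool.Agent.Helper14.CV

namespace Pool.Agent.Helper28.WK

theorem symP_two {R : Type} [AddCommGroup R] (r s : ℕ) (G : ℤ → ℤ → R) :
    SymP 2 r s G ↔ Pool.Agent.Helper14.CV.Sym r s G := by
  unfold SymP Pool.Agent.Helper14.CV.Sym
  simp only [Nat.cast_ofNat]

/-- The content UI from UIP. -/
theorem hUI (h : UIp) : UI := by
  intro R _ r s χ hχ hu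
  refine h 2 le_rfl R _ r s χ ((symP_two r s χ).2 hχ) ?_
  simpa only [Nat.cast_ofNat] using hu

private theorem Tw_append {R : Type} [AddCommGroup R] (m : ℤ) (l₁ l₂ : List ℕ)
    (G : ℤ → ℤ → R) : Tw m (l₁ ++ l₂) G = Tw m l₁ (Tw m l₂ G) := by
  induction l₁ with
  | nil => rfl
  | cons l ls ih => simp only [List.cons_append, Tw, ih]

private theorem Tw_replicate {R : Type} [AddCommGroup R] (m : ℤ) (l n : ℕ)
    (G : ℤ → ℤ → R) : Tw m (List.replicate n l) G = (Tl l m)^[n] G := by
  induction n with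
  | zero => rfl
  | succ n ih => rw [List.replicate_succ, Tw, ih, Function.iterate_succ_apply']

theorem ev_eq_evw {R : Type} [AddCommGroup R] (m : ℤ) (G : ℤ → ℤ → R) (i j : ℕ) :
    ev m G i j = evw m (List.replicate i 3 ++ List.replicate j 5) G := by
  simp only [ev, evw, Tw_append, Tw_replicate]

theorem hTAp2 (h : TA) : TAp 2 := by
  intro m M g hm hg hW hs hev
  have hW' : EqC (act 0 (-1) (2 ^ m) 0 g) (-g) := by simpa only [Nat.cast_ofNat] using hW
  have hev' : ∀ i j : ℕ, ev 1 g i j = 0 := by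
    intro i j
    rw [ev_eq_evw]
    refine hev _ ?_
    intro l hl
    rcases List.mem_append.1 hl with h1 | h1
    · rw [List.eq_of_mem_replicate h1]; exact ⟨by norm_num, by norm_num⟩
    · rw [List.eq_of_mem_replicate h1]; exact ⟨by norm_num, by norm_num⟩
  obtain ⟨ψ, h1, h2⟩ := h m M g hm ((symP_two 0 m g).1 hg) hW' hs hev'
  refine ⟨ψ, (symP_two 0 (m - 1) ψ).2 h1, ?_⟩
  simpa only [Nat.cast_ofNat] using h2

end Pool.Agent.Helper28.WK
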