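import Pool.Agent.Helper1.CV.M_HkT
import Pool.Agent.Helper10.CV.M_N1
import Pool.Agent.Helper10.CV.M_Sub
import Pool.Agent.Helper15.CV.M_O1
import Pool.Agent.Helper16.CV.M_Hk3
import Pool.Agent.Helper2.CV.M_Com
import Pool.Agent.Helper2.CV.M_Lvl
import Pool.Agent.Helper21.CV.M_KerO
import Pool.Agent.Helper26.CV.M_Grp
import Pool.Agent.Helper28.CV.M_Lif
import Pool.Agent.Helper36.CV.M_Ex
import Pool.Agent.Helper38.CV.M_Far
import Pool.Agent.Helper38.CV.M_Led
import Pool.Agent.Helper38.CV.M_PlA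
import Pool.Agent.Helper45.CV.M_Low0
import Pool.Agent.Helper47.CV.M_HkW
import Pool.Agent.Helper47.CV.M_Ld5
import Pool.Agent.Helper55.CV.M_Fex
import Pool.Agent.Helper57.CV.M_Ld3
import Pool.Agent.Helper58.CV.M_Cnt
import Pool.Agent.Helper6.CV.M_B3b
import Pool.Agent.Helper6.CV.M_HkF
import Pool.Agent.Helper61.CV.M_DimE
import Pool.Agent.Helper69.CV.M_Tri
import Pool.Agent.Helper7.CV.M_PlU
import Pool.Agent.Helper7.CV.M_Prd
import Pool.Agent.Helper71.CV.M_B3a
import Pool.Agent.Helper71.CV.M_DimO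
import Pool.Agent.Helper71.CV.M_Rel
import Pool.Agent.Helper72.CV.M_LowA
import Pool.Agent.Helper75.CV.M_Ev
import Pool.Agent.Helper75.CV.M_Hk5
import Pool.Agent.Helper76.CV.M_UBof
import Pool.Agent.Helper78.CV.M_HkB
import Pool.Agent.Helper78.CV.M_Trc
import Pool.Agent.Helper80.CV.M_E1
import Pool.Agent.Helper81.CV.M_Sur
import Pool.Agent.Helper82.CV.M_Bal
import Pool.Agent.Helper86.CV.M_Uni
import Pool.Agent.Helper9.CV.M_Rmap
import Pool.Agent.Helper90.CV.M_DimF
import Pool.Agent.Helper92.CV.M_Itr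
import Pool.Agent.Helper24.CV.M_Lifp
import Pool.Agent.Helper14.CV.M_Nrm
import Pool.Agent.Helper14.CV.M_Bb
import Pool.Agent.Helper96.CV.M_LBof
import Pool.Agent.Helper97.CV.M_HkS
import Pool.Agent.Helper98.CV.M_Edg
import Pool.Agent.Helper99.CV.M_Hk
import Pool.Agent.Helper19.CV.M_Unb
import Pool.Agent.Helper81.WK.M_Bas
import Pool.Agent.Helper37.WK.M_Dim
import Pool.Agent.Helper13.WK.M_Nex
import Pool.Agent.Helper69.WK.M_Bse
import Pool.Agent.Helper16.WK.M_EvU
import Pool.Agent.Helper76.WK.M_Ks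
import Pool.Agent.Helper47.WK.M_K
import Pool.Agent.Helper97.WK.M_Lfm
import Pool.Agent.Helper32.WK.M_Lft
import Pool.Agent.Helper86.WK.M_Crm
import Pool.Agent.Helper63.WK.M_Int
import Pool.Agent.Helper82.WK.M_TA
import Pool.Agent.Helper28.WK.M_Ta2
import Pool.Agent.Helper82.WK.M_UIp

/-!
# Theorem A for the prime 2
-/

set_option autoImplicit false

open Pool.Agent.Helper14.CV

namespace Pool.Agent.Helper28.WK

/-- The theorem on symbols of weight `2` with values modulo `2^M` (Theorem A). -/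
theorem thmA : TA := by
  have hNrm := Pool.Agent.Helper14.CV.hNrm
  have hBb := Pool.Agent.Helper14.CV.hBb
  have n1 := Pool.Agent.Helper10.CV.hN1
  have hk := Pool.Agent.Helper99.CV.hHk n1
  have hkS := Pool.Agent.Helper97.CV.hHkS hk
  have hkW := Pool.Agent.Helper47.CV.hHkW hk
  have hkT := Pool.Agent.Helper1.CV.hHkT hk
  have far := Pool.Agent.Helper38.CV.hFar
  have com := Pool.Agent.Helper2.CV.hCom
  have lvl := Pool.Agent.Helper2.CV.hLvl hNrm
  have hev := Pool.Agent.Helper75.CV.hEv hkS hkW hkT hNrm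
  have b3a := Pool.Agent.Helper71.CV.hB3a hNrm com lvl hev
  have b3b := Pool.Agent.Helper6.CV.hB3b far hNrm com hev
  -- upper bound
  have plA := Pool.Agent.Helper38.CV.hPlA
  have plU := Pool.Agent.Helper7.CV.hPlU
  have edg := Pool.Agent.Helper98.CV.hEdg plA plU
  have e1 := Pool.Agent.Helper80.CV.hE1 far plA edg
  have trc := Pool.Agent.Helper78.CV.hTrc
  have dimE := Pool.Agent.Helper61.CV.hDimE trc
  have o1 := Pool.Agent.Helper15.CV.hO1 far plA edg
  have kerO := Pool.Agent.Helper21.CV.hKerO Pool.Agent.Helper9.CV.hRmap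
    (Pool.Agent.Helper71.CV.hDimO trc) (Pool.Agent.Helper90.CV.hDimF trc)
  have ub := Pool.Agent.Helper76.CV.hUBof Pool.Agent.Helper82.CV.hBal e1 o1 dimE kerO
  -- lower bound
  have rel := Pool.Agent.Helper71.CV.hRel plA edg
  have ex := Pool.Agent.Helper36.CV.hEx far Pool.Agent.Helper55.CV.hFex plA
  have uni := Pool.Agent.Helper86.CV.hUni far edg
  have hkB := Pool.Agent.Helper78.CV.hHkB hk hkS
  have hkF := Pool.Agent.Helper6.CV.hHkF plA plU edg hkB
  have low0 := Pool.Agent.Helper45.CV.hLow0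
  have prd := Pool.Agent.Helper7.CV.hPrd
  have sub := Pool.Agent.Helper10.CV.hSub low0 prd
  have grp := Pool.Agent.Helper26.CV.hGrp
  have lowA := Pool.Agent.Helper72.CV.hLowA low0 grp sub
  have hk3 := Pool.Agent.Helper16.CV.hHk3 plA edg hkF
  have hk5 := Pool.Agent.Helper75.CV.hHk5 plA edg hkF
  have ld3 := Pool.Agent.Helper57.CV.hLd3 low0 grp lowA
  have ld5 := Pool.Agent.Helper47.CV.hLd5 low0 grp lowA
  have sur := Pool.Agent.Helper81.CV.hSur low0 grp lowA hBb
  have led := Pool.Agent.Helper38.CV.hLed low0 grp lowA hBb sur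
  have itr := Pool.Agent.Helper92.CV.hItr rel hkB hk3 hk5 low0 ld3 ld5
  have tri := Pool.Agent.Helper69.CV.hTri ex low0 hBb led itr
  have lif := Pool.Agent.Helper28.CV.hLif rel ex uni (Pool.Agent.Helper24.CV.hLifp grp)
  have lb := Pool.Agent.Helper96.CV.hLBof tri lif Pool.Agent.Helper19.CV.hUnb
    Pool.Agent.Helper58.CV.hCnt
  -- part A
  have ui := hUI (Pool.Agent.Helper82.WK.hUIp far)
  have bas := Pool.Agent.Helper81.WK.hBas tri lif Pool.Agent.Helper58.CV.hCnt
  have dim := Pool.Agent.Helper37.WK.hDim b3a b3b ub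
  have nex := Pool.Agent.Helper13.WK.hNex b3a b3b ub lb
  have bse := Pool.Agent.Helper69.WK.hBse far
  have evu := Pool.Agent.Helper16.WK.hEvU hk hkS
  have ks := Pool.Agent.Helper76.WK.hKs hNrm hev lvl com nex evu
  have kk := Pool.Agent.Helper47.WK.hK ks bse
  have lft := Pool.Agent.Helper32.WK.hLft rel ex uni Pool.Agent.Helper97.WK.hLfm
  have crm := Pool.Agent.Helper86.WK.hCrm bas dim lft
  have int := Pool.Agent.Helper63.WK.hInt ui
  exact Pool.Agent.Helper82.WK.hTA hNrm hev com crm kk int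

/-- Theorem A for `p = 2`. -/
theorem tap2 : TAp 2 := hTAp2 thmA

end Pool.Agent.Helper28.WK
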