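import Pool.Agent.Helper28.WK.Defs

/-!
# Project WK: statements, part A (weight 2 symbols modulo `2^M`, THEOREM A)

`u` is `act 2 0 0 1` (the cusp `x` goes to `2x`). Paper proof: /team-store/wkproof.md.
Composition rule of CV: `act_act`.
-/

set_option autoImplicit false

open Pool.Agent.Helper14.CV

namespace Pool.Agent.Helper28.WK

/-- UI. A `u`-invariant symbol is constant. Proof. Let `H` be the set of integral matrices `κ`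
of determinant one with `EqC (act κ χ) χ`; it is closed under products and inverses
(`act_act`, `EqC.act`). `(1 b; 0 1)` with `2^r ∣ b` is in `H`; since
`(2 0; 0 1) (1 b; 0 1) = (1 2b; 0 1) (2 0; 0 1)`, from `(1 2b; 0 1)` in `H` and `u χ ≈ χ` follows
`(1 b; 0 1)` in `H` (`χ∘(1 b; 0 1) ≈ χ∘u∘(1 b; 0 1) = χ∘(1 2b; 0 1)∘u ≈ χ∘u ≈ χ`, all compositions with
matrices of nonzero determinant); so `(1 1; 0 1)` is in `H`. From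
`(2 0; 0 1) (1 0; 2c 1) = (1 0; c 1) (2 0; 0 1)` follows: `(1 0; 2c 1)` in `H` implies `(1 0; c 1)` in `H`
(if `χ∘(1 0; c 1)∘u ≈ χ∘u∘(1 0; 2c 1) ≈ χ`, then `χ∘(1 0; c 1)` and `χ` have composites with
`u` equal up to a constant, and `Homog` lets one cancel `u`: every `(p, q)` is up to the factor `2`
of the form `(2p', q')`). So `H` contains `(1 1; 0 1)` and `(1 0; 1 1)`, so all of `SL₂(ℤ)`
(`SpecialLinearGroup.SL2Z_generators`, `S = (1 -1; 0 1)(1 0; 1 1)(1 -1; 0 1)`, or Euclid). Let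
`c = χ(0,1) - χ(1,0)`. From `(1 1; 0 1)`: `χ(1,1) - χ(1,0) = c`; from `(1 0; 1 1)`:
`χ(0,1) - χ(1,1) = c`, so `c = (χ(0,1) - χ(1,1)) + (χ(1,1) - χ(1,0)) = 2c`, `c = 0`. So
`χ a c' = χ b d'` for all matrices of determinant one: `StFar`. -/
def StUI : Prop := StFar → ∀ (R : Type) (_ : AddCommGroup R) (r s : ℕ) (χ : ℤ → ℤ → R),
  Sym r s χ → EqC (act 2 0 0 1 χ) χ → EqC χ 0

/-- The content of UI, for later modules. -/
def UI : Prop := ∀ (R : Type) (_ : AddCommGroup R) (r s : ℕ) (χ : ℤ → ℤ → R),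
  Sym r s χ → EqC (act 2 0 0 1 χ) χ → EqC χ 0

/-- BAS. An integral family with odd determinant. Proof: exactly the proof of `StLBof`
(Pool/Agent/Helper96/CV/M_LBof.lean) before the passage to complex numbers: `n = 2k`:
`(r,s) = (k-1,k-1)`, `n = 2k+1`: `(r,s) = (k,k-1)`; TRI, LIF; transport of an integral symbol `G` of level
`(r+1, s+1)` to level `(0, r+s+2)` by `G0 (p,q) = G (2^(r+1) p, q)` with `ev 1 G0 = ev (2^(r+1)) G`; the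
matrix modulo 2 is triangular for the order (`3i+4j`, then `i+2j`), so its determinant is odd. -/
def StBas : Prop := StTri → StLif → StCnt → ∀ m : ℕ, 5 ≤ m →
  ∃ (G : Fin (DD m) → ℤ → ℤ → ℤ) (ij : Fin (DD m) → ℕ × ℕ), (∀ k, Sym 0 m (G k)) ∧
    Odd (Matrix.det (Matrix.of fun k l => ev 1 (G k) (ij l).1 (ij l).2))

/-- The content of BAS. -/
def Bas : Prop := ∀ m : ℕ, 5 ≤ m →
  ∃ (G : Fin (DD m) → ℤ → ℤ → ℤ) (ij : Fin (DD m) → ℕ × ℕ), (∀ k, Sym 0 m (G k)) ∧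
    Odd (Matrix.det (Matrix.of fun k l => ev 1 (G k) (ij l).1 (ij l).2))

/-- DIM. `ev` of every symbol is a combination of `ev` of `DD m` symbols with independent `ev`.
Proof: `finrank ((XS m).map evL) ≤ DD m` and finiteness are `V_bound` of
Pool/Agent/Helper22/CV/M_CoreOf.lean; the span of the family is contained in it and has `finrank`
`DD m`, so they are equal (`Submodule.eq_of_le_of_finrank_le`). -/
def StDim : Prop := StB3a → StB3b → StUB → ∀ (m : ℕ) (G : Fin (DD m) → (ℤ → ℤ → ℂ)), 5 ≤ m →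
  (∀ k, Sym 0 m (G k)) → LinearIndependent ℂ (fun k => evL (G k)) →
  ∀ H : ℤ → ℤ → ℂ, Sym 0 m H → evL H ∈ Submodule.span ℂ (Set.range fun k => evL (G k))

/-- The content of DIM. -/
def DimS : Prop := ∀ (m : ℕ) (G : Fin (DD m) → (ℤ → ℤ → ℂ)), 5 ≤ m →
  (∀ k, Sym 0 m (G k)) → LinearIndependent ℂ (fun k => evL (G k)) →
  ∀ H : ℤ → ℤ → ℂ, Sym 0 m H → evL H ∈ Submodule.span ℂ (Set.range fun k => evL (G k))

/-- NEX. The old and the new part of `ev` are independent. Proof. `m = 3, 4`: `dd m = 0`, so `Θ G1 = 0`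
in `StUB` (functions on `Fin 0`) and `EqC G1 0`. `m ≥ 5`: definitions `V`, `W`, lemmas `V_bound`, `W_bound`,
`V_le_of_B3a` of Pool/Agent/Helper22/CV/M_CoreOf.lean; `evL G1 = -evL G0` is in `V (m-1) ⊓ W m`. If
`¬ EqC G1 0`: either `evL G1 = 0`, then `finrank (W m) + 1 ≤ dd m` (third part of `W_bound`); or
`V (m-1) ⊓ W m ≠ ⊥`, then `finrank (V (m-1) ⊔ W m) + 1 ≤ finrank (V (m-1)) + finrank (W m)`
(`Submodule.finrank_sup_add_finrank_inf_eq`). In both cases `finrank (V m) < DD m`, against LB, as in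
`hCoreOf`. -/
def StNex : Prop := StB3a → StB3b → StUB → StLB → ∀ (m : ℕ) (G0 G1 : ℤ → ℤ → ℂ), 3 ≤ m →
  Sym 0 (m - 1) G0 → NewSym m G1 → (∀ i j : ℕ, ev 1 G0 i j + ev 1 G1 i j = 0) → EqC G1 0

/-- The content of NEX. -/
def Nex : Prop := ∀ (m : ℕ) (G0 G1 : ℤ → ℤ → ℂ), 3 ≤ m →
  Sym 0 (m - 1) G0 → NewSym m G1 → (∀ i j : ℕ, ev 1 G0 i j + ev 1 G1 i j = 0) → EqC G1 0

/-- BSE. Level 4: the argument inside `StB3b` (Pool/Agent/Helper6/CV/M_B3b.lean): `K(1,0) = K(0,1)`,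
`K∘W ≈ -K` imply that `K` is constant. -/
def StBse : Prop := StFar → ∀ K : ℤ → ℤ → ℂ, Sym 0 2 K → EqC (act 0 (-1) (2 ^ 2) 0 K) (-K) →
  K 1 0 = K 0 1 → EqC K 0

/-- The content of BSE. -/
def Bse : Prop := ∀ K : ℤ → ℤ → ℂ, Sym 0 2 K → EqC (act 0 (-1) (2 ^ 2) 0 K) (-K) →
  K 1 0 = K 0 1 → EqC K 0

/-- EVU. `u` maps symbols of level `2^n` to symbols of level `2^(n+1)`, commutes with `T_l` up to
constants and does not change `ev`. Proof: (i) `u (a b; c d) = (a 2b; c/2 d) u`. (ii) For the family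
`δ = (1 2j; 0 l)` (`j < l`), `(l 0; 0 1)` HK gives `∑ G∘δ ≈ Tl l 1 G` (level `2^n`, `l` odd so the classes are
distinct), and `G∘u∘(1 j; 0 l) = G∘(1 2j; 0 l)∘u`, `G∘u∘(l 0; 0 1) = G∘(l 0; 0 1)∘u`. (iii) Induction as in
`StEv` (Pool/Agent/Helper75/CV/M_Ev.lean), using HKS, and `H(2,0) = H(1,0)` by `Homog`. -/
def StEvU : Prop := StHk → StHkS → ∀ (R : Type) (_ : AddCommGroup R) (n : ℕ) (G : ℤ → ℤ → R),
  Sym 0 n G → Sym 0 (n + 1) (act 2 0 0 1 G) ∧ ∀ i j : ℕ, ev 1 (act 2 0 0 1 G) i j = ev 1 G i j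

/-- The content of EVU. -/
def EvU : Prop := ∀ (R : Type) (_ : AddCommGroup R) (n : ℕ) (G : ℤ → ℤ → R),
  Sym 0 n G → Sym 0 (n + 1) (act 2 0 0 1 G) ∧ ∀ i j : ℕ, ev 1 (act 2 0 0 1 G) i j = ev 1 G i j

/-- KS. Step of the induction for K. Proof. `t = act 2 1 0 2`, `σ = act 1 0 (2^(m-1)) 1`,
`W = act 0 (-1) (2^m) 0`, `W' = act 0 (-1) (2^(m-1)) 0`, `* = act (-1) 0 0 1`; relations COM up to
constants. With `A = (G + tG)/2`, `B = (G - tG)/2`: `Gpp = (A + σA)/2`, `Gpm = (A - σA)/2`,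
`Gmp = (B + σB)/2`, `Gmm = (B - σB)/2`, `G = Gpp + Gpm + Gmp + Gmm`. All commute with `*`, and
`W Gpp ≈ -Gpp`, `W Gmp ≈ -Gpm`, `W Gmm ≈ -Gmm` (from `W t = σ W`, `W G ≈ -G`). `Gmm` is a `NewSym`.
`Gpp` and `Gmp` are `σ`-invariant, so of level `2^(m-1)` (LVL a); `ev Gpm = -ev (W Gpm) = ev (Gmp)`, so
`ev G = ev (Gpp + 2 Gmp) + ev Gmm`: by NEX (with `G0 = Gpp + 2 Gmp`) `Gmm ≈ 0`. Put
`ω = Gpp/2 + Gmp` of level `2^(m-1)`: `G ≈ ω - W ω`, and `W ω = u (W' ω)` exactly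
(`act_act`). Take `G' = ω - W' ω`, `ψ = -W' ω`: `G ≈ ω - u W' ω = G' + (u ψ - ψ)`. `W'` normalises
level `2^(m-1)` (NRM, `m - 1 ≥ 2`) and `W' W' ω ≈ ω` (`W' W' = -2^(m-1)`, `Homog`), so `W' G' ≈ -G'`;
`* G' ≈ G'` (`* W' = W' *` up to sign); `ev G' = ev G - ev (u ψ) + ev ψ = 0` by EVU. -/
def StKs : Prop := StNrm → StEv → StLvl → StCom → Nex → EvU →
  ∀ (m : ℕ) (G : ℤ → ℤ → ℂ), 3 ≤ m → Sym 0 m G →
  EqC (act 0 (-1) (2 ^ m) 0 G) (-G) → EqC (act (-1) 0 0 1 G) G → (∀ i j : ℕ, ev 1 G i j = 0) →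
  ∃ G' ψ : ℤ → ℤ → ℂ, Sym 0 (m - 1) G' ∧ Sym 0 (m - 1) ψ ∧
    EqC (act 0 (-1) (2 ^ (m - 1)) 0 G') (-G') ∧ EqC (act (-1) 0 0 1 G') G' ∧
    (∀ i j : ℕ, ev 1 G' i j = 0) ∧ EqC G (G' + (act 2 0 0 1 ψ - ψ))

/-- The content of KS. -/
def Ks : Prop := ∀ (m : ℕ) (G : ℤ → ℤ → ℂ), 3 ≤ m → Sym 0 m G →
  EqC (act 0 (-1) (2 ^ m) 0 G) (-G) → EqC (act (-1) 0 0 1 G) G → (∀ i j : ℕ, ev 1 G i j = 0) →
  ∃ G' ψ : ℤ → ℤ → ℂ, Sym 0 (m - 1) G' ∧ Sym 0 (m - 1) ψ ∧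
    EqC (act 0 (-1) (2 ^ (m - 1)) 0 G') (-G') ∧ EqC (act (-1) 0 0 1 G') G' ∧
    (∀ i j : ℕ, ev 1 G' i j = 0) ∧ EqC G (G' + (act 2 0 0 1 ψ - ψ))

/-- K. The kernel of `ev` is the image of `u - 1`. Proof: induction on `m` (KS). `m = 3`: `G'` has level
4, `ev 1 G' 0 0 = G' 1 0 - G' 0 1 = 0`, BSE: `G' ≈ 0`. `m ≥ 4`: `G' ≈ u ψ' - ψ'` with `ψ'` of level
`2^(m-2)`, so of level `2^(m-1)`. -/
def StK : Prop := Ks → Bse → ∀ (m : ℕ) (G : ℤ → ℤ → ℂ), 3 ≤ m → Sym 0 m G →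
  EqC (act 0 (-1) (2 ^ m) 0 G) (-G) → EqC (act (-1) 0 0 1 G) G → (∀ i j : ℕ, ev 1 G i j = 0) →
  ∃ ψ : ℤ → ℤ → ℂ, Sym 0 (m - 1) ψ ∧ EqC (act 2 0 0 1 ψ - ψ) G

/-- The content of K. -/
def Kk : Prop := ∀ (m : ℕ) (G : ℤ → ℤ → ℂ), 3 ≤ m → Sym 0 m G →
  EqC (act 0 (-1) (2 ^ m) 0 G) (-G) → EqC (act (-1) 0 0 1 G) G → (∀ i j : ℕ, ev 1 G i j = 0) →
  ∃ ψ : ℤ → ℤ → ℂ, Sym 0 (m - 1) ψ ∧ EqC (act 2 0 0 1 ψ - ψ) G

/-- LFM. Lifting solutions of the relation from `ZMod (2^M)` to `ℤ`: the proof of `StLifp`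
(Pool/Agent/Helper24/CV/M_Lifp.lean) with `2` replaced by `2^M`. Take any lifts; the defect
`E(p) = F1(pA) - F1(p) - F3(pC⁻¹) + F3(p)` is divisible by `2^M` and has total sum zero; `E/2^M` has total
sum zero and is therefore `H1(pA) - H1(p) - H3(pC⁻¹) + H3(p)`; subtract `2^M H`. -/
def StLfm : Prop := ∀ (r s M : ℕ) (f1 f3 : ZMod (2 ^ r) → ZMod (2 ^ s) → ZMod (2 ^ M)), Rel f1 f3 →
  ∃ F1 F3 : ZMod (2 ^ r) → ZMod (2 ^ s) → ℤ, Rel F1 F3 ∧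
    (∀ x y, ((F1 x y : ℤ) : ZMod (2 ^ M)) = f1 x y) ∧
    (∀ x y, ((F3 x y : ℤ) : ZMod (2 ^ M)) = f3 x y)

/-- LFT. Lifting symbols of level `2^m` from `ZMod (2^M)` to `ℤ`. Proof: `m = r + 2`, `s = 0`. The
potential `g1 (p,q) = g (p, 2^(r+1) q)` is a symbol of level `(r+1, 1)`; REL, LFM, EX over `ℤ`
give an integral symbol `G1` of level `(r+1, 1)` whose reduction has the same plane functions as
`g1`, so it equals `g1` up to a constant (UNI over `ZMod (2^M)`; cf. Pool/Agent/Helper28/CV/M_Lif.lean).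
Transport back: `G (p,q) = G1 (2^(r+1) p, q)`, a symbol of level `(0, r+2)`, and
`g1 (2^(r+1) p, q) = g (2^(r+1) p, 2^(r+1) q) = g (p, q)`. -/
def StLft : Prop := StRel → StEx → StUni → StLfm → ∀ (m M : ℕ) (g : ℤ → ℤ → ZMod (2 ^ M)), 2 ≤ m →
  Sym 0 m g → ∃ G : ℤ → ℤ → ℤ, Sym 0 m G ∧ EqC (fun p q => ((G p q : ℤ) : ZMod (2 ^ M))) g

/-- The content of LFT. -/
def Lft : Prop := ∀ (m M : ℕ) (g : ℤ → ℤ → ZMod (2 ^ M)), 2 ≤ m →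
  Sym 0 m g → ∃ G : ℤ → ℤ → ℤ, Sym 0 m G ∧ EqC (fun p q => ((G p q : ℤ) : ZMod (2 ^ M))) g

/-- CRM. Cramer. Proof. Let `G~` be an integral lift of `g` (LFT), `G_k`, `(i_k, j_k)` from BAS,
`X = (ev 1 G_k i_l j_l)`, `d = det X` odd. The complexifications of the `G_k` have independent `evL`
(`d ≠ 0`), so by DIM `ev 1 G~ i j = ∑_k y_k ev 1 G_k i j` (all `i, j`) with complex `y_k`. With
`e_l = ev 1 G~ i_l j_l` (integers divisible by `2^M`, since `ev 1 g = 0` and `ev` commutes with reduction)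
`y X = e`, so `d y = e adj(X)`: `d y_k = 2^M z_k` with integers `z_k`. Put
`G = d G~ - 2^M ∑ z_k G_k`. -/
def StCrm : Prop := Bas → DimS → Lft → ∀ (m M : ℕ) (g : ℤ → ℤ → ZMod (2 ^ M)), 5 ≤ m → Sym 0 m g →
  (∀ i j : ℕ, ev 1 g i j = 0) → ∃ (d : ℤ) (G : ℤ → ℤ → ℤ), Odd d ∧ Sym 0 m G ∧
    (∀ i j : ℕ, ev 1 G i j = 0) ∧ EqC (fun p q => ((G p q : ℤ) : ZMod (2 ^ M))) (d • g)

/-- The content of CRM. -/
def Crm : Prop := ∀ (m M : ℕ) (g : ℤ → ℤ → ZMod (2 ^ M)), 5 ≤ m → Sym 0 m g →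
  (∀ i j : ℕ, ev 1 g i j = 0) → ∃ (d : ℤ) (G : ℤ → ℤ → ℤ), Odd d ∧ Sym 0 m G ∧
    (∀ i j : ℕ, ev 1 G i j = 0) ∧ EqC (fun p q => ((G p q : ℤ) : ZMod (2 ^ M))) (d • g)

/-- INT. Integrality. Proof: `ψ - ψ(1,0)` modulo `ℤ`, with values in the quotient group
`ℂ ⧸ AddSubgroup.zmultiples (1 : ℂ)` (or `ℂ ⧸ (Int.castAddHom ℂ).range`), is a `u`-invariant symbol, so it is
zero away from the origin by UI (it vanishes at `(1,0)`); choose the integers `ψ' p q` with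
`ψ p q - ψ 1 0 = ψ' p q` away from the origin (`ψ' 0 0 = 0`). The constants in `EqC` are integers:
evaluate at `(1, 0)`. -/
def StInt : Prop := UI → ∀ (m : ℕ) (ψ : ℤ → ℤ → ℂ) (G : ℤ → ℤ → ℤ), Sym 0 m ψ →
  EqC (act 2 0 0 1 ψ - ψ) (fun p q => ((G p q : ℤ) : ℂ)) →
  ∃ ψ' : ℤ → ℤ → ℤ, Sym 0 m ψ' ∧ EqC (act 2 0 0 1 ψ' - ψ') G

/-- The content of INT. -/
def IntS : Prop := ∀ (m : ℕ) (ψ : ℤ → ℤ → ℂ) (G : ℤ → ℤ → ℤ), Sym 0 m ψ →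
  EqC (act 2 0 0 1 ψ - ψ) (fun p q => ((G p q : ℤ) : ℂ)) →
  ∃ ψ' : ℤ → ℤ → ℤ, Sym 0 m ψ' ∧ EqC (act 2 0 0 1 ψ' - ψ') G

/-- TA (Theorem A). Proof. `d`, `G1` from CRM. `G2 = G1 - W G1 + * (G1 - W G1)` (integral;
`W = act 0 (-1) (2^m) 0`, `* = act (-1) 0 0 1`). Its complexification is a symbol (NRM) with
`W G2 ≈ -G2`, `* G2 ≈ G2` (COM) and `ev G2 = 4 ev G1 = 0` (EVW). By K and INT there is an integral
`ψ1` with `u ψ1 - ψ1 ≈ G2`. Modulo `2^M`: `G2 ≡ d (g - W g + * (g - W g)) ≈ 4 d g` up to constants.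
Multiply by an integer `d'` with `d d' ≡ 1` modulo `2^M`. -/
def StTA : Prop := StNrm → StEv → StCom → Crm → Kk → IntS →
  ∀ (m M : ℕ) (g : ℤ → ℤ → ZMod (2 ^ M)), 5 ≤ m → Sym 0 m g →
  EqC (act 0 (-1) (2 ^ m) 0 g) (-g) → EqC (act (-1) 0 0 1 g) g → (∀ i j : ℕ, ev 1 g i j = 0) →
  ∃ ψ : ℤ → ℤ → ZMod (2 ^ M), Sym 0 (m - 1) ψ ∧ EqC (act 2 0 0 1 ψ - ψ) ((4 : ℤ) • g)

/-- The content of TA. -/
def TA : Prop := ∀ (m M : ℕ) (g : ℤ → ℤ → ZMod (2 ^ M)), 5 ≤ m → Sym 0 m g →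
  EqC (act 0 (-1) (2 ^ m) 0 g) (-g) → EqC (act (-1) 0 0 1 g) g → (∀ i j : ℕ, ev 1 g i j = 0) →
  ∃ ψ : ℤ → ℤ → ZMod (2 ^ M), Sym 0 (m - 1) ψ ∧ EqC (act 2 0 0 1 ψ - ψ) ((4 : ℤ) • g)

end Pool.Agent.Helper28.WK
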